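import Mathlib

/-!
Statements for MP_e9c934_an (helper24).  P1 = `Seg.glue`, P2 = `Seg.final_of_interface`.
-/

open Set Filter Topology Module

namespace Seg

/-- P1: gluing theorem for (possibly infinite) polyhedral complexes, generic path argument.
`S k` : countably many affine subspaces of codimension ≥ 2 (all edges/vertices lie in them).
`act i j` : the functional `ℓ i j` is an active one for cell `i`;
cell `i` = `{x | ∀ j, act i j → 0 ≤ ℓ i j x}`; its facet `j` (`act i j`) lies in `{ℓ i j = 0}` and is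
glued to facet `(σ i j).2` of the cell `(σ i j).1`. -/
def GlueStatement : Prop :=
  ∀ {V : Type} [NormedAddCommGroup V] [InnerProductSpace ℝ V] [FiniteDimensional ℝ V]
    {F : Type} [PseudoMetricSpace F] {ι J κ : Type} [Countable κ] [Fintype J] [DecidableEq J]
    (S : κ → AffineSubspace ℝ V) (_hS : ∀ k, finrank ℝ (S k).direction + 2 ≤ finrank ℝ V)
    (act : ι → J → Prop)
    (ℓ : ι → J → V →ᵃ[ℝ] ℝ)
    (_hint : ∀ i, ∃ c, ∀ j, act i j → 0 < ℓ i j c)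
    (_hedge : ∀ i j j', act i j → act i j' → j ≠ j' → ∀ x, ℓ i j x = 0 → ℓ i j' x = 0 →
      ∃ k, x ∈ S k)
    (_hfin : ∀ x, (∀ k, x ∉ S k) → ∃ U ∈ 𝓝 x, {i | ∃ y ∈ U, ∀ j, act i j → 0 ≤ ℓ i j y}.Finite)
    (σ : ι → J → ι × J)
    (_hσ0 : ∀ i j, act i j → act (σ i j).1 (σ i j).2)
    (_hσ1 : ∀ i j, act i j → (σ i j).1 ≠ i)
    (_hσ2 : ∀ i j, act i j → σ (σ i j).1 (σ i j).2 = (i, j))
    (_hσ3 : ∀ i j, act i j → ∃ c : ℝ, 0 < c ∧ ∀ x, ℓ (σ i j).1 (σ i j).2 x = - c * ℓ i j x)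
    (_hσ4 : ∀ i j x, act i j → ℓ i j x = 0 → (∀ j', act i j' → 0 ≤ ℓ i j' x) →
      (∀ j', act (σ i j).1 j' → 0 ≤ ℓ (σ i j).1 j' x))
    (x₀ : V) (_hx₀ : ∀ k, x₀ ∉ S k) (_hx₀u : ∃! i, ∀ j, act i j → 0 ≤ ℓ i j x₀)
    (A : ι → V → F) (L : NNReal) (_hA : ∀ i, LipschitzWith L (A i))
    (_hAσ : ∀ i j x, act i j → ℓ i j x = 0 → (∀ j', act i j' → 0 ≤ ℓ i j' x) →
      A i x = A (σ i j).1 x),
    -- (a) every generic point is covered
    (∀ x, (∀ k, x ∉ S k) → ∃ i, ∀ j, act i j → 0 ≤ ℓ i j x) ∧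
    -- (b) the pieces fit together to an L-Lipschitz map
    (∀ i i' x y, (∀ j, act i j → 0 ≤ ℓ i j x) → (∀ j, act i' j → 0 ≤ ℓ i' j y) →
        dist (A i x) (A i' y) ≤ L * dist x y) ∧
    -- (c) the interior of a cell meets no other cell
    (∀ i i' x, (∀ j, act i j → 0 < ℓ i j x) → (∀ j, act i' j → 0 ≤ ℓ i' j x) → i = i')

abbrev E3 := EuclideanSpace ℝ (Fin 3)

/-- the closed vertical ray -/
def Ray : Set E3 := {x | x 0 = 0 ∧ x 1 = 0 ∧ 0 ≤ x 2}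

/-- P2: the analytic end game. `F` is the self-similar map constructed from the mesh;
`f = F ∘ inversion centred at (0,0,-1)` maps the complement of the segment
`[(0,0,-1),(0,0,0)]` to `ℝ³`. -/
def FinalStatement : Prop :=
  ∀ (F : E3 → E3) (L L' : NNReal) (_hL : LipschitzWith L F)
    (_hloc : ∀ x ∉ Ray, ∃ e : OpenPartialHomeomorph E3 E3, x ∈ e.source ∧ EqOn F e e.source ∧
      ∀ y ∈ e.source, ∀ z ∈ e.source, dist y z ≤ L' * dist (F y) (F z))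
    (_hninj : ∀ x ∈ Ray, ∀ U ∈ 𝓝 x, ¬ InjOn F (U \ Ray)),
    ∃ (f : E3 → E3) (K : ℝ),
      let I := segment ℝ (EuclideanSpace.single 2 (-1) : E3) 0
      -- local homeomorphism off I
      (∀ x ∉ I, ∃ e : OpenPartialHomeomorph E3 E3, x ∈ e.source ∧ e.source ⊆ Iᶜ ∧
        EqOn f e e.source) ∧
      -- locally Lipschitz off I
      (∀ x ∉ I, ∃ C : NNReal, ∃ U ∈ 𝓝 x, LipschitzOnWith C f U) ∧
      -- bounded distortion off I
      (∀ᵐ x : E3, x ∉ I → DifferentiableAt ℝ f x ∧ (fderiv ℝ f x).det ≠ 0 ∧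
        ∀ h h' : E3, ‖h‖ = 1 → ‖h'‖ = 1 → ‖fderiv ℝ f x h‖ ≤ K * ‖fderiv ℝ f x h'‖) ∧
      -- f is non-injective on every punctured neighbourhood of every point of I
      (∀ x ∈ I, ∀ U ∈ 𝓝 x, ¬ InjOn f (U \ I))

end Seg
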