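import Mathlib
import Pool.Agent.Helper24.Seg.Stmts

/-!
# Basic simplex algebra in `E3` for MP_e9c934_an
-/

open Set Filter Topology Module

namespace Seg

/-- 6 × signed volume of the tetrahedron `p q r s`. -/
def vol (p q r s : E3) : ℝ :=
  (q 0 - p 0) * ((r 1 - p 1) * (s 2 - p 2) - (r 2 - p 2) * (s 1 - p 1))
  - (q 1 - p 1) * ((r 0 - p 0) * (s 2 - p 2) - (r 2 - p 2) * (s 0 - p 0))
  + (q 2 - p 2) * ((r 0 - p 0) * (s 1 - p 1) - (r 1 - p 1) * (s 0 - p 0))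

/-- 6 × signed volume of a tetrahedron given by its vertices -/
def V4 (a : Fin 4 → E3) : ℝ := vol (a 0) (a 1) (a 2) (a 3)

/-- `N a j x` : the volume of the tetrahedron with vertex `j` replaced by `x`. -/
def N (a : Fin 4 → E3) (j : Fin 4) (x : E3) : ℝ := V4 (Function.update a j x)

lemma N0 (a : Fin 4 → E3) (x : E3) : N a 0 x = vol x (a 1) (a 2) (a 3) := by
  simp [N, V4]
lemma N1 (a : Fin 4 → E3) (x : E3) : N a 1 x = vol (a 0) x (a 2) (a 3) := by
  simp [N, V4]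
lemma N2 (a : Fin 4 → E3) (x : E3) : N a 2 x = vol (a 0) (a 1) x (a 3) := by
  simp [N, V4]
lemma N3 (a : Fin 4 → E3) (x : E3) : N a 3 x = vol (a 0) (a 1) (a 2) x := by
  simp [N, V4]

lemma N_self (a : Fin 4 → E3) (j : Fin 4) : N a j (a j) = V4 a := by
  simp [N]

lemma N_other (a : Fin 4 → E3) {j k : Fin 4} (h : j ≠ k) : N a j (a k) = 0 := by
  fin_cases j <;> fin_cases k <;> first | exact absurd rfl h | skip
  all_goals simp [N0, N1, N2, N3, vol]
  all_goals try ring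

lemma N_sum (a : Fin 4 → E3) (x : E3) : ∑ j, N a j x = V4 a := by
  simp only [Fin.sum_univ_four, N0, N1, N2, N3, V4, vol]; ring

lemma N_sum_coord (a : Fin 4 → E3) (x : E3) (i : Fin 3) :
    ∑ j, N a j x * a j i = V4 a * x i := by
  simp only [Fin.sum_univ_four, N0, N1, N2, N3, V4, vol]
  fin_cases i <;> simp <;> ring

lemma N_sum_smul (a : Fin 4 → E3) (x : E3) : ∑ j, N a j x • a j = V4 a • x := by
  ext i
  have := N_sum_coord a x i
  simpa [Finset.sum_apply, Fin.sum_univ_four] using this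

/-- the affine functional `N a j` as an affine map -/
noncomputable def NA (a : Fin 4 → E3) (j : Fin 4) : E3 →ᵃ[ℝ] ℝ where
  toFun := N a j
  linear :=
    { toFun := fun h => N a j h - N a j 0
      map_add' := by
        intro x y
        fin_cases j <;> simp [N0, N1, N2, N3, vol] <;> ring
      map_smul' := by
        intro c x
        fin_cases j <;> simp [N0, N1, N2, N3, vol] <;> ring }
  map_vadd' := by
    intro p v
    fin_cases j <;> simp [N0, N1, N2, N3, vol] <;> ring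

@[simp] lemma NA_apply (a : Fin 4 → E3) (j : Fin 4) (x : E3) : NA a j x = N a j x := rfl

/-- closed simplex -/
def cell (a : Fin 4 → E3) : Set E3 := {x | ∀ j, 0 ≤ N a j x}

/-- the affine map sending `a j` to `b j` (when `V4 a ≠ 0`) -/
noncomputable def amap (a b : Fin 4 → E3) (x : E3) : E3 := (V4 a)⁻¹ • ∑ j, N a j x • b j

/-- A simplicial complex of tetrahedra with domain vertices `a` and target vertices `b`,
all positively oriented on both sides, glued along facets. -/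
structure Cplx (ι : Type) where
  a : ι → Fin 4 → E3
  b : ι → Fin 4 → E3
  ha : ∀ i, 0 < V4 (a i)
  hb : ∀ i, 0 < V4 (b i)
  /-- the facet of `i` opposite to vertex `j` is glued to the facet `(σ i j).2` of `(σ i j).1` -/
  σ : ι → Fin 4 → ι × Fin 4
  /-- vertex `j₁ ≠ j` of `i` is identified with vertex `π i j j₁` of `(σ i j).1` -/
  π : ι → Fin 4 → Fin 4 → Fin 4
  hσ1 : ∀ i j, (σ i j).1 ≠ i
  hσ2 : ∀ i j, σ (σ i j).1 (σ i j).2 = (i, j)
  hπ1 : ∀ i j j₁, j₁ ≠ j → π i j j₁ ≠ (σ i j).2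
  hπ2 : ∀ i j j₁, j₁ ≠ j → π (σ i j).1 (σ i j).2 (π i j j₁) = j₁
  hπa : ∀ i j j₁, j₁ ≠ j → a (σ i j).1 (π i j j₁) = a i j₁
  hπb : ∀ i j j₁, j₁ ≠ j → b (σ i j).1 (π i j j₁) = b i j₁
  hσa : ∀ i j x, N (a (σ i j).1) (σ i j).2 x = - N (a i) j x
  hσb : ∀ i j x, N (b (σ i j).1) (σ i j).2 x = - N (b i) j x

/-- exchange domain and target -/
def Cplx.swap {ι : Type} (C : Cplx ι) : Cplx ι where
  a := C.b
  b := C.a
  ha := C.hb
  hb := C.ha
  σ := C.σ
  π := C.π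
  hσ1 := C.hσ1
  hσ2 := C.hσ2
  hπ1 := C.hπ1
  hπ2 := C.hπ2
  hπa := C.hπb
  hπb := C.hπa
  hσa := C.hσb
  hσb := C.hσa

/-- closed cone of the tetrahedron `a` at its vertex `j₀` -/
def cone (a : Fin 4 → E3) (j₀ : Fin 4) : Set E3 := {x | ∀ j, j ≠ j₀ → 0 ≤ N a j x}

/-- `St` is the (closed) star of a vertex: pairs (tetrahedron, index of the vertex). -/
structure IsStar {ι : Type} (C : Cplx ι) (St : Finset (ι × Fin 4)) (p q : E3) : Prop where
  closed : ∀ i j₀, (i, j₀) ∈ St → ∀ j, j ≠ j₀ → ((C.σ i j).1, C.π i j j₀) ∈ St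
  apexa : ∀ i j₀, (i, j₀) ∈ St → C.a i j₀ = p
  apexb : ∀ i j₀, (i, j₀) ∈ St → C.b i j₀ = q
  /-- a test point lying in exactly one closed domain cone, and in its interior -/
  testa : ∃ x₀ : E3, ∃ i j₀, (i, j₀) ∈ St ∧ (∀ j, j ≠ j₀ → 0 < N (C.a i) j x₀) ∧
    ∀ i' j', (i', j') ∈ St → x₀ ∈ cone (C.a i') j' → (i', j') = (i, j₀)
  /-- a test point lying in exactly one closed target cone, and in its interior -/
  testb : ∃ y₀ : E3, ∃ i j₀, (i, j₀) ∈ St ∧ (∀ j, j ≠ j₀ → 0 < N (C.b i) j y₀) ∧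
    ∀ i' j', (i', j') ∈ St → y₀ ∈ cone (C.b i') j' → (i', j') = (i, j₀)

/-- P3a: local homeomorphism at the star of a vertex. -/
def StarStatement : Prop :=
  ∀ {ι : Type} (C : Cplx ι) (St : Finset (ι × Fin 4)) (p q : E3) (_hSt : IsStar C St p q)
    (F : E3 → E3) (_hF : Continuous F) (_hFc : ∀ i, ∀ x ∈ cell (C.a i), F x = amap (C.a i) (C.b i) x)
    (L' : NNReal) (_hL' : ∀ i j₀, (i, j₀) ∈ St → LipschitzWith L' (amap (C.b i) (C.a i))),
    ∃ e : OpenPartialHomeomorph E3 E3,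
      e.source = {x | ∃ i j₀, (i, j₀) ∈ St ∧ x ∈ cell (C.a i) ∧ 0 < N (C.a i) j₀ x} ∧
      EqOn F e e.source ∧
      ∀ y ∈ e.source, ∀ z ∈ e.source, dist y z ≤ L' * dist (F y) (F z)

/-- P3b: the global map of an infinite complex filling `ℝ³ \ {0}`. -/
def GlobalStatement : Prop :=
  ∀ {ι : Type} [Countable ι] (C : Cplx ι)
    (_hfin : ∀ x : E3, x ≠ 0 → ∃ U ∈ 𝓝 x, {i | (cell (C.a i) ∩ U).Nonempty}.Finite)
    (_h0 : ∀ i, (0 : E3) ∉ cell (C.a i))
    (_htest : ∃ x₀ i₀, (∀ j, 0 < N (C.a i₀) j x₀) ∧ ∀ i, x₀ ∈ cell (C.a i) → i = i₀)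
    (L : NNReal) (_hL : ∀ i, LipschitzWith L (amap (C.a i) (C.b i))),
    (∃ (F : E3 → E3) (L₁ : NNReal), LipschitzWith L₁ F ∧
      ∀ i, ∀ x ∈ cell (C.a i), F x = amap (C.a i) (C.b i) x) ∧
    (∀ x : E3, x ≠ 0 → ∃ i, x ∈ cell (C.a i)) ∧
    (∀ i i' x, (∀ j, 0 < N (C.a i) j x) → x ∈ cell (C.a i') → i = i')

end Seg
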