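import Mathlib
import Pool.Agent.Helper24.Seg.Data

/-!
Kernel-checked integer certificate for MP_e9c934_an.
-/

namespace Seg

abbrev Z3 := ℤ × ℤ × ℤ

/-- 6 × signed volume, integer version -/
def volZ (p q r s : Z3) : ℤ :=
  (q.1 - p.1) * ((r.2.1 - p.2.1) * (s.2.2 - p.2.2) - (r.2.2 - p.2.2) * (s.2.1 - p.2.1))
  - (q.2.1 - p.2.1) * ((r.1 - p.1) * (s.2.2 - p.2.2) - (r.2.2 - p.2.2) * (s.1 - p.1))
  + (q.2.2 - p.2.2) * ((r.1 - p.1) * (s.2.1 - p.2.1) - (r.2.1 - p.2.1) * (s.1 - p.1))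

def NZ (a : Fin 4 → Z3) (j : Fin 4) (x : Z3) : ℤ :=
  match j with
  | 0 => volZ x (a 1) (a 2) (a 3)
  | 1 => volZ (a 0) x (a 2) (a 3)
  | 2 => volZ (a 0) (a 1) x (a 3)
  | 3 => volZ (a 0) (a 1) (a 2) x

def addZ (p q : Z3) : Z3 := (p.1 + q.1, p.2.1 + q.2.1, p.2.2 + q.2.2)
def smZ (c : ℤ) (p : Z3) : Z3 := (c * p.1, c * p.2.1, c * p.2.2)

/-- number of tetrahedra (mod scaling) -/
def nT : ℕ := 526
/-- number of vertices -/
def nV : ℕ := 89
/-- number of vertices on the ray -/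
def nB : ℕ := 10

def tv (k : ℕ) (j : Fin 4) : ℕ := (Data.TT.getD k 0 / 512 ^ j.val) % 128
def ts (k : ℕ) (j : Fin 4) : ℕ := (Data.TT.getD k 0 / 512 ^ j.val / 128) % 4
def sk (k : ℕ) (j : Fin 4) : ℕ := (Data.NB.getD k 0 / 65536 ^ j.val) % 1024
def sd (k : ℕ) (j : Fin 4) : ℤ := (((Data.NB.getD k 0 / 65536 ^ j.val / 1024) % 4 : ℕ) : ℤ) - 1
def si (k : ℕ) (j : Fin 4) : ℕ := (Data.NB.getD k 0 / 65536 ^ j.val / 4096) % 16

/-- the odd permutations of `Fin 4` -/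
def op (i : ℕ) : Fin 4 → Fin 4 :=
  match i with
  | 0 => ![0, 1, 3, 2]
  | 1 => ![0, 2, 1, 3]
  | 2 => ![0, 3, 2, 1]
  | 3 => ![1, 0, 2, 3]
  | 4 => ![1, 2, 3, 0]
  | 5 => ![1, 3, 0, 2]
  | 6 => ![2, 0, 3, 1]
  | 7 => ![2, 1, 0, 3]
  | 8 => ![2, 3, 1, 0]
  | 9 => ![3, 0, 1, 2]
  | 10 => ![3, 1, 2, 0]
  | _ => ![3, 2, 0, 1]

def sp (k : ℕ) (j : Fin 4) : Fin 4 → Fin 4 := op (si k j)

def D (v : ℕ) : Z3 := Data.VD.getD v (0, 0, 0)
def Q (v : ℕ) : Z3 := Data.VQ.getD v (0, 0, 0)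

def aZ (k : ℕ) (j : Fin 4) : Z3 := smZ (4 ^ ts k j) (D (tv k j))
def bZ (k : ℕ) (j : Fin 4) : Z3 := smZ (4 ^ ts k j) (Q (tv k j))

/-- checks for a tetrahedron: orientation, `0` outside, vertex numbers in range -/
def okTet (k : ℕ) : Bool :=
  decide (0 < volZ (aZ k 0) (aZ k 1) (aZ k 2) (aZ k 3)) &&
  decide (0 < volZ (bZ k 0) (bZ k 1) (bZ k 2) (bZ k 3)) &&
  (decide (NZ (aZ k) 0 (0, 0, 0) < 0) || decide (NZ (aZ k) 1 (0, 0, 0) < 0) ||
    decide (NZ (aZ k) 2 (0, 0, 0) < 0) || decide (NZ (aZ k) 3 (0, 0, 0) < 0))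

/-- check of the gluing of facet `j` of tetrahedron `k` -/
def okPair (k : ℕ) (j : Fin 4) : Bool :=
  decide (tv k j < 89) && decide (sk k j < 526) &&
  (decide (sk k j ≠ k) || decide (sd k j ≠ 0)) &&
  decide (sk (sk k j) (sp k j j) = k) && decide (sd (sk k j) (sp k j j) = - sd k j) &&
  decide (∀ i : Fin 4, sp (sk k j) (sp k j j) (sp k j i) = i) &&
  decide (∀ i : Fin 4, i ≠ j → tv (sk k j) (sp k j i) = tv k i ∧
    (ts (sk k j) (sp k j i) : ℤ) + sd k j = ts k i)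

/-- test direction checks -/
def okDir (k : ℕ) (j : Fin 4) : Bool :=
  let v := tv k j
  decide (v < 10) ||
  ((let X := smZ (4 ^ ts k j) (addZ (D v) (Data.DD.getD v ((0,0,0),0,0)).1)
    if k = (Data.DD.getD v ((0,0,0),0,0)).2.1 ∧ j.val = (Data.DD.getD v ((0,0,0),0,0)).2.2 then
      decide (∀ i : Fin 4, i ≠ j → 0 < NZ (aZ k) i X)
    else decide (∃ i : Fin 4, i ≠ j ∧ NZ (aZ k) i X < 0)) &&
  (let Y := smZ (4 ^ ts k j) (addZ (Q v) (Data.DQ.getD v ((0,0,0),0,0)).1)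
    if k = (Data.DQ.getD v ((0,0,0),0,0)).2.1 ∧ j.val = (Data.DQ.getD v ((0,0,0),0,0)).2.2 then
      decide (∀ i : Fin 4, i ≠ j → 0 < NZ (bZ k) i Y)
    else decide (∃ i : Fin 4, i ≠ j ∧ NZ (bZ k) i Y < 0)))

/-- the test point lies in no cell `(k, n)` other than `(0, 1)` -/
def okRay (k : ℕ) : Bool :=
  let C := fun j : Fin 4 => NZ (aZ k) j (0, 0, 0)
  let G := fun j : Fin 4 => NZ (aZ k) j Data.XP - NZ (aZ k) j (0, 0, 0)
  decide (∃ j : Fin 4, G j < 0 ∧ 64 * G j + C j < 0) &&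
  decide (∃ j : Fin 4, C j < 0 ∧ G j + 4096 * C j < 0) &&
  decide (∃ j : Fin 4, 16 * G j + C j < 0) &&
  decide (∃ j : Fin 4, 4 * G j + C j < 0) &&
  decide (∃ j : Fin 4, G j + C j < 0) &&
  (decide (k = 0) || decide (∃ j : Fin 4, G j + 4 * C j < 0)) &&
  decide (∃ j : Fin 4, G j + 16 * C j < 0) &&
  decide (∃ j : Fin 4, G j + 64 * C j < 0) &&
  decide (∃ j : Fin 4, G j + 256 * C j < 0) &&
  decide (∃ j : Fin 4, G j + 1024 * C j < 0)

set_option maxRecDepth 100000 in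
theorem check_tet : (List.range 526).all okTet = true := by decide +kernel

/-- the designated test cones belong to the right vertices -/
def okDes (v : ℕ) : Bool :=
  decide (v < 10) ||
  (let d := (Data.DD.getD v ((0,0,0),0,0)).2
   let q := (Data.DQ.getD v ((0,0,0),0,0)).2
   decide (d.1 < 526) && decide (d.2 < 4) && decide (tv d.1 (Fin.ofNat 4 d.2) = v) &&
   decide (q.1 < 526) && decide (q.2 < 4) && decide (tv q.1 (Fin.ofNat 4 q.2) = v))

/-- an edge of the ray -/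
def okEdge (i : ℕ) : Bool :=
  let e := Data.BE.getD i ((0,0,0),(0,0,0),(0,0,0))
  let k := e.1.1
  let j₀ : Fin 4 := Fin.ofNat 4 e.1.2.1
  let j₁ : Fin 4 := Fin.ofNat 4 e.1.2.2
  let k' := e.2.1.1
  let j₀' : Fin 4 := Fin.ofNat 4 e.2.1.2.1
  let j₁' : Fin 4 := Fin.ofNat 4 e.2.1.2.2
  let u := e.2.2
  let i' := if i = 9 then 0 else i + 1
  let c := if i = 9 then 1 else 0
  decide (k < 526) && decide (k' < 526) && (decide (k ≠ k') || decide (ts k j₀ ≠ ts k' j₀')) &&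
  decide (j₀ ≠ j₁) && decide (j₀' ≠ j₁') &&
  decide (tv k j₀ = i) && decide (tv k j₁ = i') && decide (ts k j₁ = ts k j₀ + c) &&
  decide (tv k' j₀' = i) && decide (tv k' j₁' = i') && decide (ts k' j₁' = ts k' j₀' + c) &&
  decide (∀ j : Fin 4, j ≠ j₀ → j ≠ j₁ → 0 < NZ (bZ k) j (smZ (4 ^ ts k j₀) (addZ (Q i) u))) &&
  decide (∀ j : Fin 4, j ≠ j₀' → j ≠ j₁' →
    0 < NZ (bZ k') j (smZ (4 ^ ts k' j₀') (addZ (Q i) u)))

/-- the vertices on the ray -/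
def okB (i : ℕ) : Bool :=
  decide ((D i).1 = 0) && decide ((D i).2.1 = 0) && decide (0 < (D i).2.2) &&
  (if i = 9 then decide ((D i).2.2 < 4 * (D 0).2.2) else decide ((D i).2.2 < (D (i + 1)).2.2))

set_option maxRecDepth 100000 in
theorem check_des : (List.range 89).all okDes = true := by decide +kernel

set_option maxRecDepth 100000 in
theorem check_edge : (List.range 10).all okEdge = true := by decide +kernel

theorem check_B : (List.range 10).all okB = true := by decide +kernel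

set_option maxRecDepth 100000 in
theorem check_XP : ∀ j : Fin 4, 0 < NZ (aZ 0) j Data.XP + 3 * NZ (aZ 0) j (0,0,0) := by
  decide +kernel

end Seg
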