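import Mathlib
import Pool.Agent.Helper24.Seg.Check

namespace Seg

set_option maxRecDepth 100000 in
theorem check_ray : (List.range 526).all okRay = true := by decide +kernel

end Seg
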