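import Mathlib
import Pool.Agent.Helper24.Seg.Basic
import Pool.Agent.Helper24.Seg.Check
import Pool.Agent.Helper24.Seg.CheckPair
import Pool.Agent.Helper24.Seg.CheckDir
import Pool.Agent.Helper24.Seg.CheckRay

/-!
The complex of MP_e9c934_an, built from the integer certificate.
-/

open Set Filter Topology Module

namespace Seg

/-- integer point as a point of `E3` -/
noncomputable def ptZ (p : Z3) : E3 := !₂[(p.1 : ℝ), (p.2.1 : ℝ), (p.2.2 : ℝ)]

@[simp] lemma ptZ_0 (p : Z3) : ptZ p 0 = (p.1 : ℝ) := by simp [ptZ]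
@[simp] lemma ptZ_1 (p : Z3) : ptZ p 1 = (p.2.1 : ℝ) := by simp [ptZ]
@[simp] lemma ptZ_2 (p : Z3) : ptZ p 2 = (p.2.2 : ℝ) := by simp [ptZ]

lemma vol_ptZ (p q r s : Z3) : vol (ptZ p) (ptZ q) (ptZ r) (ptZ s) = (volZ p q r s : ℝ) := by
  simp [vol, volZ]

lemma V4_ptZ (a : Fin 4 → Z3) :
    V4 (fun i => ptZ (a i)) = (volZ (a 0) (a 1) (a 2) (a 3) : ℝ) := by
  simp [V4, vol_ptZ]

lemma N_ptZ (a : Fin 4 → Z3) (j : Fin 4) (x : Z3) :
    N (fun i => ptZ (a i)) j (ptZ x) = (NZ a j x : ℝ) := by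
  fin_cases j
  · simp [N0, NZ, vol_ptZ]
  · simp [N1, NZ, vol_ptZ]
  · simp [N2, NZ, vol_ptZ]
  · simp [N3, NZ, vol_ptZ]

lemma ptZ_smZ (c : ℤ) (p : Z3) : ptZ (smZ c p) = (c : ℝ) • ptZ p := by
  ext i; fin_cases i <;> simp [ptZ, smZ]

lemma ptZ_addZ (p q : Z3) : ptZ (addZ p q) = ptZ p + ptZ q := by
  ext i; fin_cases i <;> simp [ptZ, addZ]

lemma ptZ_zero : ptZ (0, 0, 0) = 0 := by
  ext i; fin_cases i <;> simp [ptZ]

lemma vol_smul (c : ℝ) (p q r s : E3) :
    vol (c • p) (c • q) (c • r) (c • s) = c ^ 3 * vol p q r s := by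
  simp [vol]; ring

lemma V4_smul (c : ℝ) (a : Fin 4 → E3) : V4 (fun i => c • a i) = c ^ 3 * V4 a := by
  simp [V4, vol_smul]

lemma N_smul (c : ℝ) (a : Fin 4 → E3) (j : Fin 4) (x : E3) :
    N (fun i => c • a i) j (c • x) = c ^ 3 * N a j x := by
  fin_cases j
  · simp [N0, vol_smul]
  · simp [N1, vol_smul]
  · simp [N2, vol_smul]
  · simp [N3, vol_smul]

/-- `N a j` is affine along the line through the origin -/
lemma N_line (a : Fin 4 → E3) (j : Fin 4) (t : ℝ) (x : E3) :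
    N a j (t • x) = N a j 0 + t * (N a j x - N a j 0) := by
  fin_cases j
  · simp [N0, vol]; ring
  · simp [N1, vol]; ring
  · simp [N2, vol]; ring
  · simp [N3, vol]; ring

lemma continuous_N (a : Fin 4 → E3) (j : Fin 4) : Continuous (N a j) := by
  fin_cases j
  · simp only [Fin.zero_eta, funext (N0 a), vol]; fun_prop
  · simp only [Fin.mk_one, funext (N1 a), vol]; fun_prop
  · simp only [Fin.reduceFinMk, funext (N2 a), vol]; fun_prop
  · simp only [Fin.reduceFinMk, funext (N3 a)]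
    show Continuous fun x => vol (a 0) (a 1) (a 2) x
    unfold vol; fun_prop

lemma isClosed_cell (a : Fin 4 → E3) : IsClosed (cell a) := by
  have : cell a = ⋂ j, {x | 0 ≤ N a j x} := by ext x; simp [cell]
  rw [this]
  exact isClosed_iInter fun j => isClosed_le continuous_const (continuous_N a j)

/-! ### Facts from the check -/

lemma all4 {p : Fin 4 → Bool} (h : (p 0 && p 1 && p 2 && p 3) = true) (j : Fin 4) :
    p j = true := by
  simp only [Bool.and_eq_true] at h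
  obtain ⟨⟨⟨h0, h1⟩, h2⟩, h3⟩ := h
  fin_cases j <;> assumption

lemma tet_ok (k : Fin 526) : okTet k = true :=
  List.all_eq_true.mp check_tet k.val (List.mem_range.mpr k.isLt)

lemma pair_ok (k : Fin 526) (j : Fin 4) : okPair k j = true :=
  all4 (List.all_eq_true.mp check_pair k.val (List.mem_range.mpr k.isLt)) j

lemma dir_ok (k : Fin 526) (j : Fin 4) : okDir k j = true :=
  all4 (List.all_eq_true.mp check_dir k.val (List.mem_range.mpr k.isLt)) j

lemma ray_ok (k : Fin 526) : okRay k = true :=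
  List.all_eq_true.mp check_ray k.val (List.mem_range.mpr k.isLt)

/-- the neighbour -/
def nb (k : Fin 526) (j : Fin 4) : Fin 526 := Fin.ofNat 526 (sk k j)

lemma pair_facts (k : Fin 526) (j : Fin 4) :
    tv k j < 89 ∧ (nb k j).val = sk k j ∧ (nb k j ≠ k ∨ sd k j ≠ 0) ∧
    nb (nb k j) (sp k j j) = k ∧ sd (nb k j) (sp k j j) = - sd k j ∧
    (∀ i, sp (nb k j) (sp k j j) (sp k j i) = i) ∧
    (∀ i, i ≠ j → tv (nb k j) (sp k j i) = tv k i ∧
      (ts (nb k j) (sp k j i) : ℤ) + sd k j = ts k i) := by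
  have h := pair_ok k j
  simp only [okPair, Bool.and_eq_true, decide_eq_true_eq, Bool.or_eq_true] at h
  obtain ⟨⟨⟨⟨⟨⟨h1, h2⟩, h3⟩, h4⟩, h5⟩, h6⟩, h7⟩ := h
  have hnb : (nb k j).val = sk k j := by
    simp [nb, Fin.ofNat, Nat.mod_eq_of_lt h2]
  refine ⟨h1, hnb, ?_, ?_, ?_, ?_, ?_⟩
  · rcases h3 with h3 | h3
    · left; intro e; apply h3; rw [← hnb, e]
    · right; exact h3
  · apply Fin.ext
    have := (pair_ok (nb k j) (sp k j j))
    simp only [okPair, Bool.and_eq_true, decide_eq_true_eq] at this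
    have h2' := this.1.1.1.1.1.2
    simp only [nb, Fin.ofNat] at *
    rw [hnb] at *
    rw [Nat.mod_eq_of_lt h2', h4]
  · rw [hnb]; exact h5
  · rw [hnb]; exact h6
  · rw [hnb]; exact h7

end Seg
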