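import Mathlib
import Pool.Agent.Helper24.Seg.Cert1

open Set Filter Topology Module

namespace Seg

/-- index set of tetrahedra: number and scale -/
abbrev Idx := Fin 526 × ℤ

/-- base tetrahedra -/
noncomputable def pa (k : ℕ) (j : Fin 4) : E3 := ptZ (aZ k j)
noncomputable def pb (k : ℕ) (j : Fin 4) : E3 := ptZ (bZ k j)

noncomputable def Aa (i : Idx) (j : Fin 4) : E3 := (4:ℝ) ^ i.2 • pa i.1 j
noncomputable def Ab (i : Idx) (j : Fin 4) : E3 := (4:ℝ) ^ i.2 • pb i.1 j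

lemma pa_eq (k : ℕ) (j : Fin 4) : pa k j = (4:ℝ) ^ (ts k j) • ptZ (D (tv k j)) := by
  simp [pa, aZ, ptZ_smZ]
lemma pb_eq (k : ℕ) (j : Fin 4) : pb k j = (4:ℝ) ^ (ts k j) • ptZ (Q (tv k j)) := by
  simp [pb, bZ, ptZ_smZ]

lemma Aa_eq (i : Idx) (j : Fin 4) :
    Aa i j = (4:ℝ) ^ (i.2 + ts i.1 j) • ptZ (D (tv i.1 j)) := by
  simp [Aa, pa_eq, smul_smul, zpow_add₀]
lemma Ab_eq (i : Idx) (j : Fin 4) :
    Ab i j = (4:ℝ) ^ (i.2 + ts i.1 j) • ptZ (Q (tv i.1 j)) := by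
  simp [Ab, pb_eq, smul_smul, zpow_add₀]

lemma V4_op (m : ℕ) (f : Fin 4 → E3) : V4 (fun i => f (op m i)) = - V4 f := by
  unfold op
  split <;> simp [V4, vol] <;> ring

lemma V4_pa (k : Fin 526) : 0 < V4 (pa k) := by
  have h := tet_ok k
  simp only [okTet, Bool.and_eq_true, decide_eq_true_eq] at h
  have := V4_ptZ (aZ k)
  show 0 < V4 (fun i => ptZ (aZ k i))
  rw [this]; exact_mod_cast h.1.1

lemma V4_pb (k : Fin 526) : 0 < V4 (pb k) := by
  have h := tet_ok k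
  simp only [okTet, Bool.and_eq_true, decide_eq_true_eq] at h
  have := V4_ptZ (bZ k)
  show 0 < V4 (fun i => ptZ (bZ k i))
  rw [this]; exact_mod_cast h.1.2

lemma V4_Aa (i : Idx) : V4 (Aa i) = ((4:ℝ) ^ i.2) ^ 3 * V4 (pa i.1) :=
  V4_smul _ _
lemma V4_Ab (i : Idx) : V4 (Ab i) = ((4:ℝ) ^ i.2) ^ 3 * V4 (pb i.1) :=
  V4_smul _ _
lemma N_Aa (i : Idx) (j : Fin 4) (x : E3) :
    N (Aa i) j ((4:ℝ) ^ i.2 • x) = ((4:ℝ) ^ i.2) ^ 3 * N (pa i.1) j x :=
  N_smul _ _ _ _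
lemma N_Ab (i : Idx) (j : Fin 4) (x : E3) :
    N (Ab i) j ((4:ℝ) ^ i.2 • x) = ((4:ℝ) ^ i.2) ^ 3 * N (pb i.1) j x :=
  N_smul _ _ _ _

/-- gluing -/
def sg (i : Idx) (j : Fin 4) : Idx × Fin 4 := ((nb i.1 j, i.2 + sd i.1 j), sp i.1 j j)

/-- vertex matching -/
def pp (i : Idx) (j : Fin 4) (j₁ : Fin 4) : Fin 4 := sp i.1 j j₁

lemma sp_inj (k : Fin 526) (j : Fin 4) : Function.Injective (sp k j) := by
  intro x y h
  have h6 := (pair_facts k j).2.2.2.2.2.1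
  rw [← h6 x, ← h6 y, h]

lemma N_glue (a a' : Fin 4 → E3) (j : Fin 4) (m : ℕ) (hinj : Function.Injective (op m))
    (h : ∀ i, i ≠ j → a' (op m i) = a i) (x : E3) : N a' (op m j) x = - N a j x := by
  have key : (fun i => Function.update a' (op m j) x (op m i)) = Function.update a j x := by
    funext i
    by_cases hi : i = j
    · subst hi; simp
    · rw [Function.update_of_ne hi, Function.update_of_ne (fun e => hi (hinj e)), h i hi]
  have := V4_op m (Function.update a' (op m j) x)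
  rw [key] at this
  simp only [N]; linarith

/-- The complex. -/
noncomputable def CC : Cplx Idx where
  a := Aa
  b := Ab
  ha i := by rw [V4_Aa]; have := V4_pa i.1; positivity
  hb i := by rw [V4_Ab]; have := V4_pb i.1; positivity
  σ := sg
  π := pp
  hσ1 i j := by
    intro h
    have h3 := (pair_facts i.1 j).2.2.1
    simp only [sg, Prod.ext_iff] at h
    rcases h3 with h3 | h3
    · exact h3 h.1
    · apply h3; linarith [h.2]
  hσ2 i j := by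
    obtain ⟨_, _, _, h4, h5, h6, _⟩ := pair_facts i.1 j
    simp only [sg]
    refine Prod.ext (Prod.ext ?_ ?_) ?_
    · exact h4
    · simp only; rw [h5]; ring
    · exact h6 j
  hπ1 i j j₁ h := by
    intro e; exact h (sp_inj i.1 j e)
  hπ2 i j j₁ _ := (pair_facts i.1 j).2.2.2.2.2.1 j₁
  hπa i j j₁ h := by
    have h7 := (pair_facts i.1 j).2.2.2.2.2.2 j₁ h
    rw [Aa_eq, Aa_eq]
    simp only [sg, pp]
    rw [h7.1]
    congr 2
    linarith [h7.2]
  hπb i j j₁ h := by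
    have h7 := (pair_facts i.1 j).2.2.2.2.2.2 j₁ h
    rw [Ab_eq, Ab_eq]
    simp only [sg, pp]
    rw [h7.1]
    congr 2
    linarith [h7.2]
  hσa i j x := by
    refine N_glue (Aa i) (Aa (sg i j).1) j (si i.1 j) (sp_inj i.1 j) ?_ x
    intro j₁ h
    have h7 := (pair_facts i.1 j).2.2.2.2.2.2 j₁ h
    rw [Aa_eq, Aa_eq]
    simp only [sg]
    show (4:ℝ) ^ (i.2 + sd i.1 j + (ts (nb i.1 j) (sp i.1 j j₁) : ℤ)) •
      ptZ (D (tv (nb i.1 j) (sp i.1 j j₁))) = _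
    rw [h7.1]
    congr 2
    linarith [h7.2]
  hσb i j x := by
    refine N_glue (Ab i) (Ab (sg i j).1) j (si i.1 j) (sp_inj i.1 j) ?_ x
    intro j₁ h
    have h7 := (pair_facts i.1 j).2.2.2.2.2.2 j₁ h
    rw [Ab_eq, Ab_eq]
    simp only [sg]
    show (4:ℝ) ^ (i.2 + sd i.1 j + (ts (nb i.1 j) (sp i.1 j j₁) : ℤ)) •
      ptZ (Q (tv (nb i.1 j) (sp i.1 j j₁))) = _
    rw [h7.1]
    congr 2
    linarith [h7.2]

end Seg
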