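import Mathlib
import Pool.Agent.Helper24.Seg.Cert2

open Set Filter Topology Module

namespace Seg

lemma four_zpow_pos (n : ℤ) : (0:ℝ) < (4:ℝ) ^ n := by positivity

lemma mem_cell_Aa (i : Idx) (x : E3) :
    x ∈ cell (Aa i) ↔ (4:ℝ) ^ (-i.2) • x ∈ cell (pa i.1) := by
  have hx : x = (4:ℝ) ^ i.2 • ((4:ℝ) ^ (-i.2) • x) := by
    rw [smul_smul, ← zpow_add₀ (by norm_num)]; simp
  constructor
  · intro h j
    have := h j
    rw [hx, N_Aa] at this
    have hp := four_zpow_pos i.2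
    exact nonneg_of_mul_nonneg_right this (by positivity)
  · intro h j
    rw [hx, N_Aa]
    have hp := four_zpow_pos i.2
    exact mul_nonneg (by positivity) (h j)

lemma zero_notMem_pa (k : Fin 526) : (0 : E3) ∉ cell (pa k) := by
  intro h
  have ht := tet_ok k
  simp only [okTet, Bool.and_eq_true, decide_eq_true_eq, Bool.or_eq_true] at ht
  have key : ∀ j, (0:ℝ) ≤ (NZ (aZ k) j (0,0,0) : ℝ) := by
    intro j
    have := h j
    rw [← ptZ_zero] at this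
    have e := N_ptZ (aZ k) j (0,0,0)
    rw [← e]; exact this
  have key' : ∀ j, 0 ≤ NZ (aZ k) j (0,0,0) := fun j => by exact_mod_cast key j
  rcases ht.2 with ((h0 | h1) | h2) | h3
  · exact absurd (key' 0) (by omega)
  · exact absurd (key' 1) (by omega)
  · exact absurd (key' 2) (by omega)
  · exact absurd (key' 3) (by omega)

lemma CC_h0 (i : Idx) : (0 : E3) ∉ cell (CC.a i) := by
  show (0 : E3) ∉ cell (Aa i)
  rw [mem_cell_Aa]
  simpa using zero_notMem_pa i.1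

/-- points of a cell are bounded -/
lemma cell_bdd (a : Fin 4 → E3) (ha : 0 < V4 a) : ∃ R : ℝ, 0 < R ∧ ∀ x ∈ cell a, ‖x‖ ≤ R := by
  refine ⟨1 + ∑ j, ‖a j‖, by positivity, ?_⟩
  intro x hx
  have h1 := N_sum_smul a x
  have h2 := N_sum a x
  have h3 : ∀ j, N a j x ≤ V4 a := by
    intro j
    rw [← h2]
    exact Finset.single_le_sum (f := fun j => N a j x) (fun i _ => hx i) (Finset.mem_univ j)
  have h4 : V4 a * ‖x‖ ≤ V4 a * ∑ j, ‖a j‖ := by
    calc V4 a * ‖x‖ = ‖V4 a • x‖ := by rw [norm_smul, Real.norm_of_nonneg ha.le]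
      _ = ‖∑ j, N a j x • a j‖ := by rw [h1]
      _ ≤ ∑ j, ‖N a j x • a j‖ := norm_sum_le _ _
      _ ≤ ∑ j, V4 a * ‖a j‖ := by
          apply Finset.sum_le_sum
          intro j _
          rw [norm_smul, Real.norm_of_nonneg (hx j)]
          exact mul_le_mul_of_nonneg_right (h3 j) (norm_nonneg _)
      _ = V4 a * ∑ j, ‖a j‖ := by rw [Finset.mul_sum]
  have := le_of_mul_le_mul_left h4 ha
  linarith

lemma cell_far (a : Fin 4 → E3) (h0 : (0 : E3) ∉ cell a) :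
    ∃ r : ℝ, 0 < r ∧ ∀ x ∈ cell a, r ≤ ‖x‖ := by
  have ho : IsOpen (cell a)ᶜ := (isClosed_cell a).isOpen_compl
  obtain ⟨r, hr, hb⟩ := Metric.isOpen_iff.mp ho 0 h0
  refine ⟨r, hr, ?_⟩
  intro x hx
  by_contra hlt
  push Not at hlt
  exact hb (by simpa using hlt) hx

lemma bounds : ∃ r R : ℝ, 0 < r ∧ 0 < R ∧ ∀ k : Fin 526, ∀ x ∈ cell (pa k), r ≤ ‖x‖ ∧ ‖x‖ ≤ R := by
  choose R hR hR' using fun k : Fin 526 => cell_bdd (pa k) (V4_pa k)
  choose r hr hr' using fun k : Fin 526 => cell_far (pa k) (zero_notMem_pa k)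
  obtain ⟨k₁, h₁⟩ := Finite.exists_min r
  obtain ⟨k₂, h₂⟩ := Finite.exists_max R
  exact ⟨r k₁, R k₂, hr k₁, hR k₂, fun k x hx => ⟨(h₁ k).trans (hr' k x hx), (hR' k x hx).trans (h₂ k)⟩⟩

lemma zpow_set_finite (c d : ℝ) (hc : 0 < c) : {n : ℤ | c ≤ (4:ℝ) ^ n ∧ (4:ℝ) ^ n ≤ d}.Finite := by
  obtain ⟨m, hm⟩ := pow_unbounded_of_one_lt (1 / c) (by norm_num : (1:ℝ) < 4)
  obtain ⟨m', hm'⟩ := pow_unbounded_of_one_lt d (by norm_num : (1:ℝ) < 4)
  apply (Set.finite_Icc (-(m:ℤ)) (m' : ℤ)).subset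
  rintro n ⟨h1, h2⟩
  constructor
  · by_contra hlt
    push Not at hlt
    have h3 : (4:ℝ) ^ n < (4:ℝ) ^ (-(m:ℤ)) := zpow_lt_zpow_right₀ (by norm_num) hlt
    have h4 : (4:ℝ) ^ (-(m:ℤ)) < c := by
      rw [zpow_neg, zpow_natCast]
      rw [inv_lt_comm₀ (by positivity) hc]
      simpa using hm
    linarith
  · by_contra hlt
    push Not at hlt
    have h3 : (4:ℝ) ^ (m':ℤ) < (4:ℝ) ^ n := zpow_lt_zpow_right₀ (by norm_num) hlt
    rw [zpow_natCast] at h3
    linarith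

lemma CC_hfin (x : E3) (hx : x ≠ 0) :
    ∃ U ∈ 𝓝 x, {i | (cell (CC.a i) ∩ U).Nonempty}.Finite := by
  obtain ⟨r, R, hr, hR, hb⟩ := bounds
  have hx' : 0 < ‖x‖ := norm_pos_iff.mpr hx
  refine ⟨Metric.ball x (‖x‖ / 2), Metric.ball_mem_nhds _ (by positivity), ?_⟩
  have hf := zpow_set_finite (‖x‖ / 2 / R) (3 * ‖x‖ / 2 / r) (by positivity)
  apply ((Set.finite_univ (α := Fin 526)).prod hf).subset
  rintro ⟨k, n⟩ ⟨y, hy, hyU⟩
  have hy' : (4:ℝ) ^ (-n) • y ∈ cell (pa k) := (mem_cell_Aa (k, n) y).mp hy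
  obtain ⟨h1, h2⟩ := hb k _ hy'
  have hp := four_zpow_pos n
  have hp' := four_zpow_pos (-n)
  rw [norm_smul, Real.norm_of_nonneg hp'.le, zpow_neg] at h1 h2
  have hd : ‖y - x‖ < ‖x‖ / 2 := by simpa [dist_eq_norm] using hyU
  have hn1 : ‖x‖ / 2 ≤ ‖y‖ := by
    have := norm_sub_norm_le x y
    rw [norm_sub_rev] at this
    linarith
  have hn2 : ‖y‖ ≤ 3 * ‖x‖ / 2 := by
    have := norm_sub_norm_le y x
    linarith
  refine ⟨Set.mem_univ _, ?_, ?_⟩
  · show ‖x‖ / 2 / R ≤ (4:ℝ) ^ n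
    rw [div_le_iff₀ hR]
    have : ‖y‖ ≤ (4:ℝ) ^ n * R := by
      have := mul_le_mul_of_nonneg_left h2 hp.le
      rwa [← mul_assoc, mul_inv_cancel₀ hp.ne', one_mul] at this
    linarith
  · show (4:ℝ) ^ n ≤ 3 * ‖x‖ / 2 / r
    rw [le_div_iff₀ hr]
    have : (4:ℝ) ^ n * r ≤ ‖y‖ := by
      have := mul_le_mul_of_nonneg_left h1 hp.le
      rwa [← mul_assoc, mul_inv_cancel₀ hp.ne', one_mul] at this
    linarith

/-! ### Lipschitz bounds -/

lemma amap_sub (a b : Fin 4 → E3) (x y : E3) :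
    amap a b x - amap a b y = (V4 a)⁻¹ • ∑ j, (N a j x - N a j y) • b j := by
  simp only [amap, sub_smul, Finset.sum_sub_distrib, smul_sub]

lemma N_sub_lip (a : Fin 4 → E3) (j : Fin 4) : ∃ K : ℝ, 0 ≤ K ∧ ∀ x y, |N a j x - N a j y| ≤ K * ‖x - y‖ := by
  have hl : ∀ x y, N a j x - N a j y = (NA a j).linear (x - y) := by
    intro x y
    have := (NA a j).linearMap_vsub x y
    simpa using this.symm
  let T := LinearMap.toContinuousLinearMap (NA a j).linear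
  refine ⟨‖T‖, norm_nonneg _, ?_⟩
  intro x y
  rw [hl, ← Real.norm_eq_abs]
  exact T.le_opNorm (x - y)

lemma amap_lip (a b : Fin 4 → E3) : ∃ L : NNReal, LipschitzWith L (amap a b) := by
  choose K hK hK' using N_sub_lip a
  refine ⟨⟨|(V4 a)⁻¹| * ∑ j, K j * ‖b j‖, ?_⟩, ?_⟩
  · exact mul_nonneg (abs_nonneg _) (Finset.sum_nonneg fun j _ => mul_nonneg (hK j) (norm_nonneg _))
  · apply LipschitzWith.of_dist_le_mul
    intro x y
    rw [dist_eq_norm, amap_sub, norm_smul, Real.norm_eq_abs, dist_eq_norm]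
    show _ ≤ (|(V4 a)⁻¹| * ∑ j, K j * ‖b j‖) * ‖x - y‖
    rw [mul_assoc]
    apply mul_le_mul_of_nonneg_left _ (abs_nonneg _)
    calc ‖∑ j, (N a j x - N a j y) • b j‖ ≤ ∑ j, ‖(N a j x - N a j y) • b j‖ := norm_sum_le _ _
      _ ≤ ∑ j, (K j * ‖b j‖) * ‖x - y‖ := by
          apply Finset.sum_le_sum
          intro j _
          rw [norm_smul, Real.norm_eq_abs]
          have := mul_le_mul_of_nonneg_right (hK' j x y) (norm_nonneg (b j))
          linarith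
      _ = (∑ j, K j * ‖b j‖) * ‖x - y‖ := by rw [Finset.sum_mul]

lemma amap_smul (c : ℝ) (hc : c ≠ 0) (a b : Fin 4 → E3) (x : E3) :
    amap (fun j => c • a j) (fun j => c • b j) x = c • amap a b (c⁻¹ • x) := by
  have hx : x = c • (c⁻¹ • x) := by rw [smul_smul, mul_inv_cancel₀ hc, one_smul]
  have hN : ∀ j, N (fun j => c • a j) j x = c ^ 3 * N a j (c⁻¹ • x) := by
    intro j
    conv_lhs => rw [hx]
    exact N_smul c a j _
  simp only [amap, hN, V4_smul, Finset.smul_sum, smul_smul]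
  apply Finset.sum_congr rfl
  intro j _
  congr 1
  field_simp

lemma amap_smul_lip (c : ℝ) (hc : 0 < c) (a b : Fin 4 → E3) (L : NNReal)
    (h : LipschitzWith L (amap a b)) :
    LipschitzWith L (amap (fun j => c • a j) (fun j => c • b j)) := by
  apply LipschitzWith.of_dist_le_mul
  intro x y
  rw [amap_smul c hc.ne', amap_smul c hc.ne', dist_smul₀, Real.norm_of_nonneg hc.le]
  have := h.dist_le_mul (c⁻¹ • x) (c⁻¹ • y)
  rw [dist_smul₀, Real.norm_of_nonneg (by positivity)] at this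
  calc c * dist (amap a b (c⁻¹ • x)) (amap a b (c⁻¹ • y))
      ≤ c * (L * (c⁻¹ * dist x y)) := mul_le_mul_of_nonneg_left this hc.le
    _ = L * dist x y := by field_simp

lemma CC_lip : ∃ L : NNReal, ∀ i, LipschitzWith L (amap (CC.a i) (CC.b i)) := by
  choose L hL using fun k : Fin 526 => amap_lip (pa k) (pb k)
  refine ⟨Finset.univ.sup L, ?_⟩
  intro i
  exact amap_smul_lip _ (four_zpow_pos i.2) _ _ _
    ((hL i.1).weaken (Finset.le_sup (Finset.mem_univ i.1)))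

lemma CC_lip' : ∃ L : NNReal, ∀ i, LipschitzWith L (amap (CC.b i) (CC.a i)) := by
  choose L hL using fun k : Fin 526 => amap_lip (pb k) (pa k)
  refine ⟨Finset.univ.sup L, ?_⟩
  intro i
  exact amap_smul_lip _ (four_zpow_pos i.2) _ _ _
    ((hL i.1).weaken (Finset.le_sup (Finset.mem_univ i.1)))

end Seg
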