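import Mathlib
import Pool.Agent.Helper24.Seg.Cert3

open Set Filter Topology Module

namespace Seg

lemma N_pa_ptZ (k : ℕ) (j : Fin 4) (X : Z3) : N (pa k) j (ptZ X) = (NZ (aZ k) j X : ℝ) :=
  N_ptZ (aZ k) j X
lemma N_pb_ptZ (k : ℕ) (j : Fin 4) (X : Z3) : N (pb k) j (ptZ X) = (NZ (bZ k) j X : ℝ) :=
  N_ptZ (bZ k) j X

/-- value of the barycentric functional of a scaled cell at the test point -/
lemma N_test (i : Idx) (j : Fin 4) (X : Z3) :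
    N (Aa i) j (ptZ X) = ((4:ℝ) ^ i.2) ^ 2 *
      ((NZ (aZ i.1) j X - NZ (aZ i.1) j (0,0,0) : ℤ) + (4:ℝ) ^ i.2 * (NZ (aZ i.1) j (0,0,0) : ℤ)) := by
  have hx : ptZ X = (4:ℝ) ^ i.2 • ((4:ℝ) ^ (-i.2) • ptZ X) := by
    rw [smul_smul, ← zpow_add₀ (by norm_num)]; simp
  conv_lhs => rw [hx]
  rw [N_Aa, N_line, ← ptZ_zero, N_pa_ptZ, N_pa_ptZ, zpow_neg]
  have hp := four_zpow_pos i.2
  push_cast
  field_simp
  ring

lemma CC_test : ∃ x₀ i₀, (∀ j, 0 < N (CC.a i₀) j x₀) ∧ ∀ i, x₀ ∈ cell (CC.a i) → i = i₀ := by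
  refine ⟨ptZ Data.XP, ((0 : Fin 526), (1 : ℤ)), ?_, ?_⟩
  · intro j
    show 0 < N (Aa ((0 : Fin 526), (1 : ℤ))) j (ptZ Data.XP)
    rw [N_test]
    have key := check_XP j
    have key' : (0:ℝ) < (NZ (aZ 0) j Data.XP : ℝ) + 3 * (NZ (aZ 0) j (0,0,0) : ℝ) := by
      exact_mod_cast key
    have : ((0 : Fin 526).val) = 0 := rfl
    simp only [this, zpow_one]
    push_cast
    nlinarith
  · rintro ⟨k, n⟩ hmem
    have hG : ∀ j, 0 ≤ ((NZ (aZ k) j Data.XP - NZ (aZ k) j (0,0,0) : ℤ) : ℝ) +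
        (4:ℝ) ^ n * (NZ (aZ k) j (0,0,0) : ℤ) := by
      intro j
      have h := hmem j
      change 0 ≤ N (Aa (k, n)) j (ptZ Data.XP) at h
      rw [N_test] at h
      have hp := four_zpow_pos n
      exact nonneg_of_mul_nonneg_right h (by positivity)
    have hr := ray_ok k
    simp only [okRay, Bool.and_eq_true, decide_eq_true_eq, Bool.or_eq_true] at hr
    obtain ⟨⟨⟨⟨⟨⟨⟨⟨⟨⟨j0, g0, c0⟩, ⟨j1, g1, c1⟩⟩, ⟨j2, c2⟩⟩, ⟨j3, c3⟩⟩, ⟨j4, c4⟩⟩, h5⟩, ⟨j6, c6⟩⟩, ⟨j7, c7⟩⟩,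
      ⟨j8, c8⟩⟩, ⟨j9, c9⟩⟩ := hr
    have hG' : ∀ j, 0 ≤ ((NZ (aZ k) j Data.XP : ℝ) - (NZ (aZ k) j (0,0,0) : ℝ)) +
        (4:ℝ) ^ n * (NZ (aZ k) j (0,0,0) : ℝ) := by
      intro j; have := hG j; push_cast at this; exact this
    by_cases hn1 : n ≤ -3
    · exfalso
      have hle : (4:ℝ) ^ n ≤ (4:ℝ) ^ (-3 : ℤ) := zpow_le_zpow_right₀ (by norm_num) hn1
      have hp := four_zpow_pos n
      have e : (4:ℝ) ^ (-3 : ℤ) = 1 / 64 := by norm_num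
      rw [e] at hle
      have h := hG' j0
      have g0' : ((NZ (aZ k) j0 Data.XP : ℝ) - (NZ (aZ k) j0 (0,0,0) : ℝ)) < 0 := by exact_mod_cast g0
      have c0' : 64 * ((NZ (aZ k) j0 Data.XP : ℝ) - (NZ (aZ k) j0 (0,0,0) : ℝ)) + (NZ (aZ k) j0 (0,0,0) : ℝ) < 0 := by exact_mod_cast c0
      rcases le_or_gt (NZ (aZ k) j0 (0,0,0) : ℝ) 0 with hc | hc
      · nlinarith
      · nlinarith
    by_cases hn2 : 6 ≤ n
    · exfalso
      have hle : (4:ℝ) ^ (6:ℤ) ≤ (4:ℝ) ^ n := zpow_le_zpow_right₀ (by norm_num) hn2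
      have e : (4:ℝ) ^ (6 : ℤ) = 4096 := by norm_num
      rw [e] at hle
      have h := hG' j1
      have g1' : (NZ (aZ k) j1 (0,0,0) : ℝ) < 0 := by exact_mod_cast g1
      have c1' : ((NZ (aZ k) j1 Data.XP : ℝ) - (NZ (aZ k) j1 (0,0,0) : ℝ)) + 4096 * (NZ (aZ k) j1 (0,0,0) : ℝ) < 0 := by exact_mod_cast c1
      nlinarith
    push Not at hn1 hn2
    have hn1' : -2 ≤ n := by omega
    have hn2' : n ≤ 5 := by omega
    interval_cases n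
    · exfalso
      have h := hG' j2
      have c' : 16 * ((NZ (aZ k) j2 Data.XP : ℝ) - (NZ (aZ k) j2 (0,0,0) : ℝ)) + (NZ (aZ k) j2 (0,0,0) : ℝ) < 0 := by exact_mod_cast c2
      norm_num at h; linarith
    · exfalso
      have h := hG' j3
      have c' : 4 * ((NZ (aZ k) j3 Data.XP : ℝ) - (NZ (aZ k) j3 (0,0,0) : ℝ)) + (NZ (aZ k) j3 (0,0,0) : ℝ) < 0 := by exact_mod_cast c3
      norm_num at h; linarith
    · exfalso
      have h := hG' j4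
      have c' : ((NZ (aZ k) j4 Data.XP : ℝ) - (NZ (aZ k) j4 (0,0,0) : ℝ)) + (NZ (aZ k) j4 (0,0,0) : ℝ) < 0 := by exact_mod_cast c4
      norm_num at h; linarith
    · rcases h5 with h5 | ⟨j5, c5⟩
      · congr 1
        exact Fin.ext h5
      · exfalso
        have h := hG' j5
        have c' : ((NZ (aZ k) j5 Data.XP : ℝ) - (NZ (aZ k) j5 (0,0,0) : ℝ)) + 4 * (NZ (aZ k) j5 (0,0,0) : ℝ) < 0 := by exact_mod_cast c5
        norm_num at h; linarith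
    · exfalso
      have h := hG' j6
      have c' : ((NZ (aZ k) j6 Data.XP : ℝ) - (NZ (aZ k) j6 (0,0,0) : ℝ)) + 16 * (NZ (aZ k) j6 (0,0,0) : ℝ) < 0 := by exact_mod_cast c6
      norm_num at h; linarith
    · exfalso
      have h := hG' j7
      have c' : ((NZ (aZ k) j7 Data.XP : ℝ) - (NZ (aZ k) j7 (0,0,0) : ℝ)) + 64 * (NZ (aZ k) j7 (0,0,0) : ℝ) < 0 := by exact_mod_cast c7
      norm_num at h; linarith
    · exfalso
      have h := hG' j8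
      have c' : ((NZ (aZ k) j8 Data.XP : ℝ) - (NZ (aZ k) j8 (0,0,0) : ℝ)) + 256 * (NZ (aZ k) j8 (0,0,0) : ℝ) < 0 := by exact_mod_cast c8
      norm_num at h; linarith
    · exfalso
      have h := hG' j9
      have c' : ((NZ (aZ k) j9 Data.XP : ℝ) - (NZ (aZ k) j9 (0,0,0) : ℝ)) + 1024 * (NZ (aZ k) j9 (0,0,0) : ℝ) < 0 := by exact_mod_cast c9
      norm_num at h; linarith

end Seg
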