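import Mathlib
import Pool.Agent.Helper24.Seg.Cert4

open Set Filter Topology Module

set_option maxRecDepth 100000

namespace Seg

/-- the star of vertex `v` at scale `m` -/
def St (v : ℕ) (m : ℤ) : Finset (Idx × Fin 4) :=
  ((Finset.univ : Finset (Fin 526 × Fin 4)).filter (fun p => tv p.1 p.2 = v)).image
    (fun p => ((p.1, m - ts p.1 p.2), p.2))

lemma mem_St (v : ℕ) (m : ℤ) (i : Idx) (j : Fin 4) :
    (i, j) ∈ St v m ↔ tv i.1 j = v ∧ i.2 + ts i.1 j = m := by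
  simp only [St, Finset.mem_image, Finset.mem_filter, Finset.mem_univ, true_and, Prod.exists,
    Prod.mk.injEq]
  constructor
  · rintro ⟨k, j', h1, h2, h3⟩
    subst h3
    subst h2
    exact ⟨h1, by simp⟩
  · rintro ⟨h1, h2⟩
    refine ⟨i.1, j, h1, ?_, rfl⟩
    apply Prod.ext
    · rfl
    · simp only; omega

/-- value of the functional at a test point of a star -/
lemma N_dirA (i : Idx) (j l : Fin 4) (X : Z3) :
    N (Aa i) l ((4:ℝ) ^ (i.2 + ts i.1 j) • ptZ X) =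
      ((4:ℝ) ^ i.2) ^ 3 * (NZ (aZ i.1) l (smZ (4 ^ ts i.1 j) X) : ℝ) := by
  have : (4:ℝ) ^ (i.2 + ts i.1 j) • ptZ X = (4:ℝ) ^ i.2 • ptZ (smZ (4 ^ ts i.1 j) X) := by
    rw [ptZ_smZ, smul_smul, zpow_add₀ (by norm_num)]
    push_cast
    simp
  rw [this, N_Aa, N_pa_ptZ]

lemma N_dirB (i : Idx) (j l : Fin 4) (X : Z3) :
    N (Ab i) l ((4:ℝ) ^ (i.2 + ts i.1 j) • ptZ X) =
      ((4:ℝ) ^ i.2) ^ 3 * (NZ (bZ i.1) l (smZ (4 ^ ts i.1 j) X) : ℝ) := by
  have : (4:ℝ) ^ (i.2 + ts i.1 j) • ptZ X = (4:ℝ) ^ i.2 • ptZ (smZ (4 ^ ts i.1 j) X) := by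
    rw [ptZ_smZ, smul_smul, zpow_add₀ (by norm_num)]
    push_cast
    simp
  rw [this, N_Ab, N_pb_ptZ]

/-- domain test direction of a vertex -/
def dA (v : ℕ) : Z3 × ℕ × ℕ := Data.DD.getD v ((0,0,0),0,0)
def dB (v : ℕ) : Z3 × ℕ × ℕ := Data.DQ.getD v ((0,0,0),0,0)

lemma dir_factsA (k : Fin 526) (j : Fin 4) (hv : ¬ tv k j < 10) :
    (k.val = (dA (tv k j)).2.1 ∧ j.val = (dA (tv k j)).2.2 →
      ∀ l : Fin 4, l ≠ j → 0 < NZ (aZ k) l (smZ (4 ^ ts k j) (addZ (D (tv k j)) (dA (tv k j)).1))) ∧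
    (¬ (k.val = (dA (tv k j)).2.1 ∧ j.val = (dA (tv k j)).2.2) →
      ∃ l : Fin 4, l ≠ j ∧ NZ (aZ k) l (smZ (4 ^ ts k j) (addZ (D (tv k j)) (dA (tv k j)).1)) < 0) := by
  have h := dir_ok k j
  simp only [okDir, Bool.or_eq_true, decide_eq_true_eq, Bool.and_eq_true] at h
  rcases h with h | ⟨h, _⟩
  · exact absurd h hv
  · constructor
    · intro hc
      have hc' : k.val = (Data.DD.getD (tv k j) ((0,0,0),0,0)).2.1 ∧
          j.val = (Data.DD.getD (tv k j) ((0,0,0),0,0)).2.2 := hc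
      rw [if_pos hc'] at h
      exact of_decide_eq_true h
    · intro hc
      have hc' : ¬ (k.val = (Data.DD.getD (tv k j) ((0,0,0),0,0)).2.1 ∧
          j.val = (Data.DD.getD (tv k j) ((0,0,0),0,0)).2.2) := hc
      rw [if_neg hc'] at h
      exact of_decide_eq_true h

lemma dir_factsB (k : Fin 526) (j : Fin 4) (hv : ¬ tv k j < 10) :
    (k.val = (dB (tv k j)).2.1 ∧ j.val = (dB (tv k j)).2.2 →
      ∀ l : Fin 4, l ≠ j → 0 < NZ (bZ k) l (smZ (4 ^ ts k j) (addZ (Q (tv k j)) (dB (tv k j)).1))) ∧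
    (¬ (k.val = (dB (tv k j)).2.1 ∧ j.val = (dB (tv k j)).2.2) →
      ∃ l : Fin 4, l ≠ j ∧ NZ (bZ k) l (smZ (4 ^ ts k j) (addZ (Q (tv k j)) (dB (tv k j)).1)) < 0) := by
  have h := dir_ok k j
  simp only [okDir, Bool.or_eq_true, decide_eq_true_eq, Bool.and_eq_true] at h
  rcases h with h | ⟨_, h⟩
  · exact absurd h hv
  · constructor
    · intro hc
      have hc' : k.val = (Data.DQ.getD (tv k j) ((0,0,0),0,0)).2.1 ∧
          j.val = (Data.DQ.getD (tv k j) ((0,0,0),0,0)).2.2 := hc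
      rw [if_pos hc'] at h
      exact of_decide_eq_true h
    · intro hc
      have hc' : ¬ (k.val = (Data.DQ.getD (tv k j) ((0,0,0),0,0)).2.1 ∧
          j.val = (Data.DQ.getD (tv k j) ((0,0,0),0,0)).2.2) := hc
      rw [if_neg hc'] at h
      exact of_decide_eq_true h

lemma des_facts (v : ℕ) (hv : v < 89) (hv' : ¬ v < 10) :
    ((dA v).2.1 < 526 ∧ (dA v).2.2 < 4 ∧ tv (dA v).2.1 (Fin.ofNat 4 (dA v).2.2) = v) ∧
    ((dB v).2.1 < 526 ∧ (dB v).2.2 < 4 ∧ tv (dB v).2.1 (Fin.ofNat 4 (dB v).2.2) = v) := by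
  have h := List.all_eq_true.mp check_des v (List.mem_range.mpr hv)
  simp only [okDes, Bool.or_eq_true, decide_eq_true_eq, Bool.and_eq_true] at h
  rcases h with h | h
  · exact absurd h hv'
  · obtain ⟨⟨⟨⟨⟨h1, h2⟩, h3⟩, h4⟩, h5⟩, h6⟩ := h
    exact ⟨⟨h1, h2, h3⟩, ⟨h4, h5, h6⟩⟩

lemma star_isStar (v : ℕ) (hv : v < 89) (hv' : ¬ v < 10) (m : ℤ) :
    IsStar CC (St v m) ((4:ℝ) ^ m • ptZ (D v)) ((4:ℝ) ^ m • ptZ (Q v)) where
  closed := by
    intro i j₀ h j hj
    rw [mem_St] at h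
    have h7 := (pair_facts i.1 j).2.2.2.2.2.2 j₀ hj.symm
    show (((nb i.1 j, i.2 + sd i.1 j) : Idx), sp i.1 j j₀) ∈ St v m
    rw [mem_St]
    refine ⟨by rw [h7.1]; exact h.1, ?_⟩
    simp only
    have := h7.2
    have := h.2
    omega
  apexa := by
    intro i j₀ h
    rw [mem_St] at h
    show Aa i j₀ = _
    rw [Aa_eq, h.1, h.2]
  apexb := by
    intro i j₀ h
    rw [mem_St] at h
    show Ab i j₀ = _
    rw [Ab_eq, h.1, h.2]
  testa := by
    obtain ⟨⟨h1, h2, h3⟩, _⟩ := des_facts v hv hv'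
    let k : Fin 526 := ⟨(dA v).2.1, h1⟩
    let j : Fin 4 := Fin.ofNat 4 (dA v).2.2
    have hj : j.val = (dA v).2.2 := by simp [j, Nat.mod_eq_of_lt h2]
    have hk : tv k j = v := h3
    refine ⟨(4:ℝ) ^ m • ptZ (addZ (D v) (dA v).1), (k, m - ts k j), j, ?_, ?_, ?_⟩
    · rw [mem_St]; exact ⟨hk, by simp⟩
    · intro l hl
      have hf := (dir_factsA k j (by rw [hk]; exact hv')).1 (by rw [hk]; exact ⟨rfl, hj⟩) l hl
      have e := N_dirA (k, m - ts k j) j l (addZ (D v) (dA v).1)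
      simp only [sub_add_cancel] at e
      show 0 < N (Aa (k, m - ts k j)) l _
      rw [e]
      rw [hk] at hf
      have hf' : (0:ℝ) < (NZ (aZ k) l (smZ (4 ^ ts k j) (addZ (D v) (dA v).1)) : ℝ) := by
        exact_mod_cast hf
      have hp := four_zpow_pos (m - ts k j)
      positivity
    · rintro i' j' hmem hcone
      rw [mem_St] at hmem
      by_contra hne
      have hv2 : ¬ tv i'.1 j' < 10 := by rw [hmem.1]; exact hv'
      have hnd : ¬ (i'.1.val = (dA (tv i'.1 j')).2.1 ∧ j'.val = (dA (tv i'.1 j')).2.2) := by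
        rw [hmem.1]
        rintro ⟨e1, e2⟩
        apply hne
        have ek : i'.1 = k := Fin.ext e1
        have ej : j' = j := Fin.ext (by rw [e2, hj])
        have em : i'.2 = m - ts k j := by
          have := hmem.2
          rw [ek, ej] at this
          omega
        exact Prod.ext (Prod.ext ek em) ej
      obtain ⟨l, hl, hneg⟩ := (dir_factsA i'.1 j' hv2).2 hnd
      have h0 := hcone l hl
      have e := N_dirA i' j' l (addZ (D v) (dA v).1)
      rw [hmem.2] at e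
      change 0 ≤ N (Aa i') l _ at h0
      rw [e] at h0
      rw [hmem.1] at hneg
      have hneg' : (NZ (aZ i'.1) l (smZ (4 ^ ts i'.1 j') (addZ (D v) (dA v).1)) : ℝ) < 0 := by
        exact_mod_cast hneg
      have hp := four_zpow_pos i'.2
      have : ((4:ℝ) ^ i'.2) ^ 3 * (NZ (aZ i'.1) l (smZ (4 ^ ts i'.1 j') (addZ (D v) (dA v).1)) : ℝ) < 0 :=
        mul_neg_of_pos_of_neg (by positivity) hneg'
      linarith
  testb := by
    obtain ⟨_, h1, h2, h3⟩ := des_facts v hv hv'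
    let k : Fin 526 := ⟨(dB v).2.1, h1⟩
    let j : Fin 4 := Fin.ofNat 4 (dB v).2.2
    have hj : j.val = (dB v).2.2 := by simp [j, Nat.mod_eq_of_lt h2]
    have hk : tv k j = v := h3
    refine ⟨(4:ℝ) ^ m • ptZ (addZ (Q v) (dB v).1), (k, m - ts k j), j, ?_, ?_, ?_⟩
    · rw [mem_St]; exact ⟨hk, by simp⟩
    · intro l hl
      have hf := (dir_factsB k j (by rw [hk]; exact hv')).1 (by rw [hk]; exact ⟨rfl, hj⟩) l hl
      have e := N_dirB (k, m - ts k j) j l (addZ (Q v) (dB v).1)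
      simp only [sub_add_cancel] at e
      show 0 < N (Ab (k, m - ts k j)) l _
      rw [e]
      rw [hk] at hf
      have hf' : (0:ℝ) < (NZ (bZ k) l (smZ (4 ^ ts k j) (addZ (Q v) (dB v).1)) : ℝ) := by
        exact_mod_cast hf
      have hp := four_zpow_pos (m - ts k j)
      positivity
    · rintro i' j' hmem hcone
      rw [mem_St] at hmem
      by_contra hne
      have hv2 : ¬ tv i'.1 j' < 10 := by rw [hmem.1]; exact hv'
      have hnd : ¬ (i'.1.val = (dB (tv i'.1 j')).2.1 ∧ j'.val = (dB (tv i'.1 j')).2.2) := by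
        rw [hmem.1]
        rintro ⟨e1, e2⟩
        apply hne
        have ek : i'.1 = k := Fin.ext e1
        have ej : j' = j := Fin.ext (by rw [e2, hj])
        have em : i'.2 = m - ts k j := by
          have := hmem.2
          rw [ek, ej] at this
          omega
        exact Prod.ext (Prod.ext ek em) ej
      obtain ⟨l, hl, hneg⟩ := (dir_factsB i'.1 j' hv2).2 hnd
      have h0 := hcone l hl
      have e := N_dirB i' j' l (addZ (Q v) (dB v).1)
      rw [hmem.2] at e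
      change 0 ≤ N (Ab i') l _ at h0
      rw [e] at h0
      rw [hmem.1] at hneg
      have hneg' : (NZ (bZ i'.1) l (smZ (4 ^ ts i'.1 j') (addZ (Q v) (dB v).1)) : ℝ) < 0 := by
        exact_mod_cast hneg
      have hp := four_zpow_pos i'.2
      have : ((4:ℝ) ^ i'.2) ^ 3 * (NZ (bZ i'.1) l (smZ (4 ^ ts i'.1 j') (addZ (Q v) (dB v).1)) : ℝ) < 0 :=
        mul_neg_of_pos_of_neg (by positivity) hneg'
      linarith

end Seg
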