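import Mathlib
import Pool.Agent.Helper24.Seg.Basic

/-!
P3c for MP_e9c934_an: non-injectivity near the branch ray.
-/

open Set Filter Topology Module

namespace Seg

/-- point of the vertical axis -/
noncomputable def axis (z : ℝ) : E3 := EuclideanSpace.single 2 z

/-- The segment `[axis z₀, axis z₁]` is an edge of two different tetrahedra `i ≠ i'` of the complex,
(with matching images of the two end points), and there is a target vector `u` pointing from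
this edge into both target tetrahedra. -/
structure BEdge {ι : Type} (C : Cplx ι) (z₀ z₁ : ℝ) : Prop where
  ex : ∃ (i i' : ι) (j₀ j₁ j₀' j₁' : Fin 4) (u : E3), i ≠ i' ∧ j₀ ≠ j₁ ∧ j₀' ≠ j₁' ∧
    C.a i j₀ = axis z₀ ∧ C.a i j₁ = axis z₁ ∧ C.a i' j₀' = axis z₀ ∧ C.a i' j₁' = axis z₁ ∧
    C.b i j₀ = C.b i' j₀' ∧ C.b i j₁ = C.b i' j₁' ∧
    (∀ j, j ≠ j₀ → j ≠ j₁ → 0 < N (C.b i) j (C.b i j₀ + u)) ∧
    (∀ j, j ≠ j₀' → j ≠ j₁' → 0 < N (C.b i') j (C.b i' j₀' + u))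

/-- P3c: `F` is not injective on any punctured (w.r.t. the ray) neighbourhood of a point of the
ray. -/
def RayStatement : Prop :=
  ∀ {ι : Type} (C : Cplx ι) (F : E3 → E3)
    (_hFc : ∀ i, ∀ x ∈ cell (C.a i), F x = amap (C.a i) (C.b i) x)
    (_hdisj : ∀ i i' x, (∀ j, 0 < N (C.a i) j x) → x ∈ cell (C.a i') → i = i')
    (_h0 : ∀ i, (0 : E3) ∉ cell (C.a i))
    (_hcov : ∀ z : ℝ, 0 < z → ∃ z₀ z₁, 0 < z₀ ∧ z₀ < z₁ ∧ z₀ ≤ z ∧ z ≤ z₁ ∧ BEdge C z₀ z₁)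
    (Z : Set ℝ) (_hZ : Z.Countable)
    (_hcov' : ∀ z : ℝ, 0 < z → z ∉ Z → ∃ z₀ z₁, 0 < z₀ ∧ z₀ < z ∧ z < z₁ ∧ BEdge C z₀ z₁),
    ∀ x ∈ Ray, ∀ U ∈ 𝓝 x, ¬ InjOn F (U \ Ray)

end Seg
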