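import Mathlib
import Pool.Agent.Helper24.Seg.Cert5
import Pool.Agent.Helper24.Seg.RayStmt

open Set Filter Topology Module

set_option maxRecDepth 100000

namespace Seg

lemma smul_axis (c z : ℝ) : c • axis z = axis (c * z) := by
  ext i; fin_cases i <;> simp [axis]

lemma B_facts (i : ℕ) (hi : i < 10) : (D i).1 = 0 ∧ (D i).2.1 = 0 ∧ 0 < (D i).2.2 ∧
    (i = 9 → (D i).2.2 < 4 * (D 0).2.2) ∧ (i ≠ 9 → (D i).2.2 < (D (i + 1)).2.2) := by
  have h := List.all_eq_true.mp check_B i (List.mem_range.mpr hi)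
  simp only [okB, Bool.and_eq_true, decide_eq_true_eq] at h
  obtain ⟨⟨⟨h1, h2⟩, h3⟩, h4⟩ := h
  refine ⟨h1, h2, h3, ?_, ?_⟩
  · intro e
    rw [if_pos e] at h4
    exact of_decide_eq_true h4
  · intro e
    rw [if_neg e] at h4
    exact of_decide_eq_true h4

/-- height of the `i`-th ray vertex -/
noncomputable def zz (i : ℕ) : ℝ := ((D i).2.2 : ℝ)

lemma ptZ_ray (i : ℕ) (hi : i < 10) : ptZ (D i) = axis (zz i) := by
  obtain ⟨h1, h2, _⟩ := B_facts i hi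
  ext l; fin_cases l
  · simp [axis, h1]
  · simp [axis, h2]
  · simp [axis, zz]

/-- next vertex on the ray -/
def nx (i : ℕ) : ℕ := if i = 9 then 0 else i + 1
def cx (i : ℕ) : ℕ := if i = 9 then 1 else 0

lemma bedge (i : ℕ) (hi : i < 10) (m : ℤ) :
    BEdge CC ((4:ℝ) ^ m * zz i) ((4:ℝ) ^ (m + cx i) * zz (nx i)) := by
  have h := List.all_eq_true.mp check_edge i (List.mem_range.mpr hi)
  simp only [okEdge, Bool.or_eq_true, decide_eq_true_eq, Bool.and_eq_true] at h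
  obtain ⟨⟨⟨⟨⟨⟨⟨⟨⟨⟨⟨⟨h1, h2⟩, h3⟩, h4⟩, h5⟩, h6⟩, h7⟩, h8⟩, h9⟩, h10⟩, h11⟩, h12⟩, h13⟩ := h
  have hnx : nx i < 10 := by unfold nx; split <;> omega
  generalize he : Data.BE.getD i ((0,0,0),(0,0,0),(0,0,0)) = e at *
  obtain ⟨⟨k, a0, a1⟩, ⟨k', b0, b1⟩, u⟩ := e
  simp only at h1 h2 h3 h4 h5 h6 h7 h8 h9 h10 h11 h12 h13
  generalize Fin.ofNat 4 a0 = j₀ at *
  generalize Fin.ofNat 4 a1 = j₁ at *
  generalize Fin.ofNat 4 b0 = j₀' at *
  generalize Fin.ofNat 4 b1 = j₁' at *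
  have e7 : tv k j₁ = nx i := h7
  have e10 : tv k' j₁' = nx i := h10
  have e8 : ts k j₁ = ts k j₀ + cx i := h8
  have e11 : ts k' j₁' = ts k' j₀' + cx i := h11
  refine ⟨(((⟨k, h1⟩ : Fin 526), m - ts k j₀) : Idx), (((⟨k', h2⟩ : Fin 526), m - ts k' j₀') : Idx),
    j₀, j₁, j₀', j₁', (4:ℝ) ^ m • ptZ u, ?_, h4, h5, ?_, ?_, ?_, ?_, ?_, ?_, ?_, ?_⟩
  · intro e
    simp only [Prod.mk.injEq, Fin.mk.injEq] at e
    rcases h3 with h3 | h3
    · exact h3 e.1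
    · apply h3; have := e.2; omega
  · show Aa _ _ = _
    rw [Aa_eq]; simp only [sub_add_cancel]
    rw [h6, ptZ_ray i hi, smul_axis]
  · show Aa _ _ = _
    rw [Aa_eq]; simp only
    rw [e7, e8, ptZ_ray _ hnx, smul_axis]
    congr 3
    push_cast; ring
  · show Aa _ _ = _
    rw [Aa_eq]; simp only [sub_add_cancel]
    rw [h9, ptZ_ray i hi, smul_axis]
  · show Aa _ _ = _
    rw [Aa_eq]; simp only
    rw [e10, e11, ptZ_ray _ hnx, smul_axis]
    congr 3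
    push_cast; ring
  · show Ab _ _ = Ab _ _
    rw [Ab_eq, Ab_eq]; simp only [sub_add_cancel]
    rw [h6, h9]
  · show Ab _ _ = Ab _ _
    rw [Ab_eq, Ab_eq]; simp only
    rw [e7, e8, e10, e11]
    congr 2
    push_cast; ring
  · intro j hj hj'
    have hh := h12 j hj hj'
    have e := N_dirB (((⟨k, h1⟩ : Fin 526), m - ts k j₀) : Idx) j₀ j (addZ (Q i) u)
    simp only [sub_add_cancel] at e
    show 0 < N (Ab _) j (Ab _ _ + _)
    rw [Ab_eq]; simp only [sub_add_cancel]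
    rw [h6, ← smul_add, ← ptZ_addZ, e]
    have hh' : (0:ℝ) < (NZ (bZ k) j (smZ (4 ^ ts k j₀) (addZ (Q i) u)) : ℝ) := by exact_mod_cast hh
    have hp := four_zpow_pos (m - ts k j₀)
    positivity
  · intro j hj hj'
    have hh := h13 j hj hj'
    have e := N_dirB (((⟨k', h2⟩ : Fin 526), m - ts k' j₀') : Idx) j₀' j (addZ (Q i) u)
    simp only [sub_add_cancel] at e
    show 0 < N (Ab _) j (Ab _ _ + _)
    rw [Ab_eq]; simp only [sub_add_cancel]
    rw [h9, ← smul_add, ← ptZ_addZ, e]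
    have hh' : (0:ℝ) < (NZ (bZ k') j (smZ (4 ^ ts k' j₀') (addZ (Q i) u)) : ℝ) := by exact_mod_cast hh
    have hp := four_zpow_pos (m - ts k' j₀')
    positivity

lemma zz_pos (i : ℕ) (hi : i < 10) : 0 < zz i := by
  have := (B_facts i hi).2.2.1
  unfold zz; exact_mod_cast this

lemma edge_lt (i : ℕ) (hi : i < 10) (m : ℤ) :
    (4:ℝ) ^ m * zz i < (4:ℝ) ^ (m + cx i) * zz (nx i) := by
  obtain ⟨_, _, _, h4, h5⟩ := B_facts i hi
  have hp := four_zpow_pos m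
  by_cases h : i = 9
  · subst h
    have h4' : zz 9 < 4 * zz 0 := by unfold zz; exact_mod_cast h4 rfl
    have : (4:ℝ) ^ (m + (cx 9 : ℤ)) = 4 ^ m * 4 := by
      rw [zpow_add₀ (by norm_num)]; simp [cx]
    rw [this]
    have e : nx 9 = 0 := rfl
    rw [e]
    nlinarith
  · have h5' : zz i < zz (i + 1) := by unfold zz; exact_mod_cast h5 h
    have e1 : nx i = i + 1 := by simp [nx, h]
    have e2 : cx i = 0 := by simp [cx, h]
    rw [e1, e2]
    simp only [Nat.cast_zero, add_zero]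
    exact mul_lt_mul_of_pos_left h5' hp

/-- heights of all the vertices on the ray -/
def ZB : Set ℝ := Set.range (fun p : Fin 10 × ℤ => (4:ℝ) ^ p.2 * zz p.1)

lemma ZB_countable : ZB.Countable := Set.countable_range _

/-- every positive height is on an edge -/
lemma cover_ex (z : ℝ) (hz : 0 < z) : ∃ i, i < 10 ∧ ∃ m : ℤ,
    (4:ℝ) ^ m * zz i ≤ z ∧ z < (4:ℝ) ^ (m + cx i) * zz (nx i) := by
  have h0 := zz_pos 0 (by norm_num)
  obtain ⟨m, hm1, hm2⟩ := exists_mem_Ico_zpow (div_pos hz h0) (by norm_num : (1:ℝ) < 4)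
  rw [le_div_iff₀ h0] at hm1
  rw [div_lt_iff₀ h0] at hm2
  -- the last index i with 4^m * zz i ≤ z
  have key : ∀ n, n < 10 → (4:ℝ) ^ m * zz n ≤ z → ∃ i, i < 10 ∧ ∃ m : ℤ,
      (4:ℝ) ^ m * zz i ≤ z ∧ z < (4:ℝ) ^ (m + cx i) * zz (nx i) := by
    intro n hn
    induction' hd : 9 - n with d ih generalizing n
    · intro hle
      have e : n = 9 := by omega
      subst e
      refine ⟨9, by norm_num, m, hle, ?_⟩
      have e1 : nx 9 = 0 := rfl
      have e2 : cx 9 = 1 := rfl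
      rw [e1, e2]
      exact_mod_cast hm2
    · intro hle
      by_cases hc : (4:ℝ) ^ m * zz (n + 1) ≤ z
      · exact ih (n + 1) (by omega) (by omega) hc
      · push Not at hc
        refine ⟨n, hn, m, hle, ?_⟩
        have e1 : nx n = n + 1 := by unfold nx; rw [if_neg (by omega)]
        have e2 : cx n = 0 := by unfold cx; rw [if_neg (by omega)]
        rw [e1, e2]
        simpa using hc
  exact key 0 (by norm_num) hm1

lemma CC_cov (z : ℝ) (hz : 0 < z) :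
    ∃ z₀ z₁, 0 < z₀ ∧ z₀ < z₁ ∧ z₀ ≤ z ∧ z ≤ z₁ ∧ BEdge CC z₀ z₁ := by
  obtain ⟨i, hi, m, h1, h2⟩ := cover_ex z hz
  refine ⟨_, _, ?_, edge_lt i hi m, h1, h2.le, bedge i hi m⟩
  have := four_zpow_pos m
  have := zz_pos i hi
  positivity

lemma CC_cov' (z : ℝ) (hz : 0 < z) (hZ : z ∉ ZB) :
    ∃ z₀ z₁, 0 < z₀ ∧ z₀ < z ∧ z < z₁ ∧ BEdge CC z₀ z₁ := by
  obtain ⟨i, hi, m, h1, h2⟩ := cover_ex z hz
  refine ⟨_, _, ?_, lt_of_le_of_ne h1 ?_, h2, bedge i hi m⟩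
  · have := four_zpow_pos m
    have := zz_pos i hi
    positivity
  · intro e
    exact hZ ⟨(⟨i, hi⟩, m), e⟩

end Seg
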