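import Mathlib
import Pool.Agent.Helper24.Seg.Cert6

open Set Filter Topology Module

set_option maxRecDepth 100000

namespace Seg

lemma zero_mem_Ray : (0 : E3) ∈ Ray := by simp [Ray]

/-- a point of a cell off the ray has a positive coordinate at a vertex off the ray -/
lemma exists_vertex (i : Idx) (x : E3) (hx : x ∈ cell (Aa i)) (hR : x ∉ Ray) :
    ∃ j, 0 < N (Aa i) j x ∧ ¬ tv i.1 j < 10 := by
  by_contra hcon
  push Not at hcon
  apply hR
  have hV : 0 < V4 (Aa i) := CC.ha i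
  have hc := N_sum_coord (Aa i) x
  have hterm : ∀ j, N (Aa i) j x * Aa i j 0 = 0 ∧ N (Aa i) j x * Aa i j 1 = 0 ∧
      0 ≤ N (Aa i) j x * Aa i j 2 := by
    intro j
    rcases (hx j).lt_or_eq with hlt | heq
    · have ht := hcon j hlt
      have hz := zz_pos _ ht
      rw [Aa_eq, ptZ_ray _ ht, smul_axis]
      have hp := four_zpow_pos (i.2 + ts i.1 j)
      refine ⟨by simp [axis], by simp [axis], ?_⟩
      simp only [axis, EuclideanSpace.single_apply, if_true]
      positivity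
    · rw [← heq]; simp
  refine ⟨?_, ?_, ?_⟩
  · have := hc 0
    rw [Finset.sum_eq_zero (fun j _ => (hterm j).1)] at this
    rcases mul_eq_zero.mp this.symm with h | h
    · exact absurd h hV.ne'
    · exact h
  · have := hc 1
    rw [Finset.sum_eq_zero (fun j _ => (hterm j).2.1)] at this
    rcases mul_eq_zero.mp this.symm with h | h
    · exact absurd h hV.ne'
    · exact h
  · have := hc 2
    have hs : 0 ≤ ∑ j, N (Aa i) j x * Aa i j 2 := Finset.sum_nonneg fun j _ => (hterm j).2.2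
    rw [this] at hs
    exact nonneg_of_mul_nonneg_right hs hV

/-- Assembly of all the pieces. -/
theorem assembly (hstar : StarStatement) (hglobal : GlobalStatement) (hray : RayStatement) :
    ∃ (F : E3 → E3) (L L' : NNReal), LipschitzWith L F ∧
    (∀ x ∉ Ray, ∃ e : OpenPartialHomeomorph E3 E3, x ∈ e.source ∧ EqOn F e e.source ∧
      ∀ y ∈ e.source, ∀ z ∈ e.source, dist y z ≤ L' * dist (F y) (F z)) ∧
    (∀ x ∈ Ray, ∀ U ∈ 𝓝 x, ¬ InjOn F (U \ Ray)) := by
  obtain ⟨L₀, hL₀⟩ := CC_lip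
  obtain ⟨L', hL'⟩ := CC_lip'
  obtain ⟨⟨F, L₁, hF1, hF2⟩, hcov, hdisj⟩ := hglobal CC CC_hfin CC_h0 CC_test L₀ hL₀
  refine ⟨F, L₁, L', hF1, ?_, ?_⟩
  · intro x hx
    have hx0 : x ≠ 0 := by
      rintro rfl; exact hx zero_mem_Ray
    obtain ⟨i, hi⟩ := hcov x hx0
    obtain ⟨j, hj, hv⟩ := exists_vertex i x hi hx
    have hv' := (pair_facts i.1 j).1
    obtain ⟨e, he1, he2, he3⟩ := hstar CC (St (tv i.1 j) (i.2 + ts i.1 j)) _ _
      (star_isStar (tv i.1 j) hv' hv (i.2 + ts i.1 j)) F hF1.continuous hF2 L'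
      (fun i _ _ => hL' i)
    refine ⟨e, ?_, he2, he3⟩
    rw [he1]
    exact ⟨i, j, (mem_St _ _ _ _).mpr ⟨rfl, rfl⟩, hi, hj⟩
  · exact hray CC F hF2 hdisj CC_h0 CC_cov ZB ZB_countable CC_cov'

end Seg
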