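import Mathlib
import Pool.Agent.Helper24.Seg.Stmts

/- Author: helper95 (namespace renamed by helper24 for assembly). -/

/-!
P2 of MP_e9c934_an (helper95 for helper24): the analytic end game, `Seg.final : Seg.FinalStatement`.
-/

open Set Filter Topology Module MeasureTheory

namespace Seg.XP2

/-- the centre of the inversion -/
noncomputable abbrev cc : E3 := EuclideanSpace.single 2 (-1 : ℝ)

/-- the inversion of radius one -/
noncomputable abbrev inv1 : E3 → E3 := EuclideanGeometry.inversion cc 1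

lemma inv1_inv1 (x : E3) : inv1 (inv1 x) = x :=
  EuclideanGeometry.inversion_inversion cc one_ne_zero x

lemma inv1_eq_cc {x : E3} : inv1 x = cc ↔ x = cc :=
  EuclideanGeometry.inversion_eq_center one_ne_zero

lemma dist_inv1 {x y : E3} (hx : x ≠ cc) (hy : y ≠ cc) :
    dist (inv1 x) (inv1 y) = 1 / (dist x cc * dist y cc) * dist x y := by
  have := EuclideanGeometry.dist_inversion_inversion hx hy 1
  simpa using this

lemma inv1_apply (x : E3) : inv1 x = (1 / dist x cc) ^ 2 • (x - cc) + cc := rfl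

lemma cc_mem : cc ∈ segment ℝ (EuclideanSpace.single 2 (-1) : E3) 0 := left_mem_segment _ _ _

lemma cc_not_mem_Ray : cc ∉ Ray := by
  rintro ⟨-, -, h⟩
  simp at h
  linarith

lemma mem_segment_iff {x : E3} :
    x ∈ segment ℝ (EuclideanSpace.single 2 (-1) : E3) 0 ↔
      x 0 = 0 ∧ x 1 = 0 ∧ -1 ≤ x 2 ∧ x 2 ≤ 0 := by
  constructor
  · rintro ⟨a, b, ha, hb, hab, rfl⟩
    refine ⟨by simp, by simp, ?_, ?_⟩
    · simp; linarith
    · simp; linarith
  · rintro ⟨h0, h1, h2, h3⟩
    refine ⟨-(x 2), 1 + x 2, by linarith, by linarith, by ring, ?_⟩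
    ext i
    fin_cases i
    · simp [h0]
    · simp [h1]
    · simp

/-- The inversion exchanges the ray and the half-open segment. -/
lemma inv1_mem_Ray {x : E3} (hx : x ≠ cc) :
    inv1 x ∈ Ray ↔ x ∈ segment ℝ (EuclideanSpace.single 2 (-1) : E3) 0 := by
  rw [mem_segment_iff]
  have hd : 0 < dist x cc := dist_pos.2 hx
  have hk : 0 < (1 / dist x cc) ^ 2 := by positivity
  have e0 : (inv1 x) 0 = (1 / dist x cc) ^ 2 * x 0 := by
    rw [inv1_apply]; simp
  have e1 : (inv1 x) 1 = (1 / dist x cc) ^ 2 * x 1 := by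
    rw [inv1_apply]; simp
  have e2 : (inv1 x) 2 = (1 / dist x cc) ^ 2 * (x 2 + 1) - 1 := by
    rw [inv1_apply]; simp; ring
  have hdist : x 0 = 0 → x 1 = 0 → (dist x cc) ^ 2 = (x 2 + 1) ^ 2 := by
    intro h0 h1
    rw [EuclideanSpace.dist_eq, Real.sq_sqrt (by positivity)]
    simp [Fin.sum_univ_three, h0, h1, Real.dist_eq, sq_abs]
  constructor
  · rintro ⟨h0, h1, h2⟩
    rw [e0] at h0
    rw [e1] at h1
    rw [e2] at h2
    have h0' : x 0 = 0 := by
      rcases mul_eq_zero.1 h0 with h | h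
      · exact absurd h hk.ne'
      · exact h
    have h1' : x 1 = 0 := by
      rcases mul_eq_zero.1 h1 with h | h
      · exact absurd h hk.ne'
      · exact h
    have hD := hdist h0' h1'
    have hpos : 0 < x 2 + 1 := by
      by_contra hcon
      push Not at hcon
      have : (1 / dist x cc) ^ 2 * (x 2 + 1) ≤ 0 := mul_nonpos_of_nonneg_of_nonpos hk.le hcon
      linarith
    have h3 : (1 / dist x cc) ^ 2 * (x 2 + 1) = 1 / (x 2 + 1) := by
      rw [one_div, inv_pow, hD]
      field_simp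
    rw [h3] at h2
    have h4 : 1 ≤ 1 / (x 2 + 1) := by linarith
    rw [le_div_iff₀ hpos] at h4
    exact ⟨h0', h1', by linarith, by linarith⟩
  · rintro ⟨h0, h1, h2, h3⟩
    refine ⟨by rw [e0, h0, mul_zero], by rw [e1, h1, mul_zero], ?_⟩
    rw [e2]
    have hD := hdist h0 h1
    have hpos : 0 < x 2 + 1 := by
      rcases lt_or_eq_of_le (show (0:ℝ) ≤ x 2 + 1 by linarith) with h | h
      · exact h
      · exfalso
        rw [← h] at hD
        have : dist x cc = 0 := by
          have := hD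
          simpa using this
        exact hd.ne' this
    have h3' : (1 / dist x cc) ^ 2 * (x 2 + 1) = 1 / (x 2 + 1) := by
      rw [one_div, inv_pow, hD]
      field_simp
    rw [h3']
    have : 1 ≤ 1 / (x 2 + 1) := by
      rw [le_div_iff₀ hpos]; linarith
    linarith

lemma inv1_not_mem_Ray {x : E3} (hx : x ∉ segment ℝ (EuclideanSpace.single 2 (-1) : E3) 0) :
    inv1 x ∉ Ray := by
  have hxc : x ≠ cc := by
    rintro rfl
    exact hx cc_mem
  rwa [inv1_mem_Ray hxc]

lemma continuousAt_inv1 {x : E3} (hx : x ≠ cc) : ContinuousAt inv1 x :=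
  (EuclideanGeometry.hasFDerivAt_inversion (R := 1) hx).continuousAt

lemma continuousOn_inv1 : ContinuousOn inv1 {cc}ᶜ :=
  fun _ hx => (continuousAt_inv1 hx).continuousWithinAt

/-- the inversion as an open partial homeomorphism of the punctured space -/
noncomputable def invOPH : OpenPartialHomeomorph E3 E3 where
  toFun := inv1
  invFun := inv1
  source := {cc}ᶜ
  target := {cc}ᶜ
  map_source' := fun x hx => by
    simp only [mem_compl_iff, mem_singleton_iff] at hx ⊢
    rwa [inv1_eq_cc]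
  map_target' := fun x hx => by
    simp only [mem_compl_iff, mem_singleton_iff] at hx ⊢
    rwa [inv1_eq_cc]
  left_inv' := fun x _ => inv1_inv1 x
  right_inv' := fun x _ => inv1_inv1 x
  open_source := isOpen_compl_singleton
  open_target := isOpen_compl_singleton
  continuousOn_toFun := continuousOn_inv1
  continuousOn_invFun := continuousOn_inv1

lemma segment_closed : IsClosed (segment ℝ (EuclideanSpace.single 2 (-1) : E3) 0) := by
  rw [segment_eq_image_lineMap]
  exact (isCompact_Icc.image (AffineMap.lineMap_continuous)).isClosed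

/-- Lower bound for a derivative of a locally expanding map. -/
lemma lower_fderiv {F : E3 → E3} {y : E3} {K : NNReal} {F' : E3 →L[ℝ] E3}
    (hF : HasFDerivAt F F' y) {s : Set E3} (hs : s ∈ 𝓝 y)
    (h : ∀ z ∈ s, dist z y ≤ K * dist (F z) (F y)) (v : E3) : ‖v‖ ≤ K * ‖F' v‖ := by
  have h1 : HasLineDerivAt ℝ F (F' v) y v := hF.hasLineDerivAt v
  have h2 : Tendsto (fun t : ℝ => t⁻¹ • (F (y + t • v) - F y)) (𝓝[≠] 0) (𝓝 (F' v)) :=
    h1.tendsto_slope_zero
  have h3 : Tendsto (fun t : ℝ => (K : ℝ) * ‖t⁻¹ • (F (y + t • v) - F y)‖) (𝓝[≠] 0)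
      (𝓝 (K * ‖F' v‖)) := (h2.norm).const_mul _
  have hcont : Tendsto (fun t : ℝ => y + t • v) (𝓝[≠] 0) (𝓝 y) := by
    have : Tendsto (fun t : ℝ => y + t • v) (𝓝 0) (𝓝 (y + (0:ℝ) • v)) := by
      apply Continuous.tendsto
      fun_prop
    rw [zero_smul, add_zero] at this
    exact this.mono_left nhdsWithin_le_nhds
  refine ge_of_tendsto h3 ?_
  filter_upwards [hcont hs, self_mem_nhdsWithin] with t ht ht0
  have ht0' : t ≠ 0 := ht0
  have := h _ ht
  rw [dist_eq_norm, dist_eq_norm, add_sub_cancel_left, norm_smul] at this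
  rw [norm_smul, norm_inv]
  have hpos : 0 < ‖t‖ := norm_pos_iff.2 ht0'
  calc ‖v‖ = ‖t‖⁻¹ * (‖t‖ * ‖v‖) := by field_simp
    _ ≤ ‖t‖⁻¹ * (K * ‖F (y + t • v) - F y‖) := by
        apply mul_le_mul_of_nonneg_left this (by positivity)
    _ = K * (‖t‖⁻¹ * ‖F (y + t • v) - F y‖) := by ring

/-- `Seg.FinalStatement` with one more conclusion: `f` is continuous off the end point
`(0,0,-1)` of the segment. -/
theorem final_plus (F : E3 → E3) (L L' : NNReal) (hL : LipschitzWith L F)
    (hloc : ∀ x ∉ Ray, ∃ e : OpenPartialHomeomorph E3 E3, x ∈ e.source ∧ EqOn F e e.source ∧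
      ∀ y ∈ e.source, ∀ z ∈ e.source, dist y z ≤ L' * dist (F y) (F z))
    (hninj : ∀ x ∈ Ray, ∀ U ∈ 𝓝 x, ¬ InjOn F (U \ Ray)) :
    ∃ (f : E3 → E3) (K : ℝ),
      let I := segment ℝ (EuclideanSpace.single 2 (-1) : E3) 0
      (∀ x ∉ I, ∃ e : OpenPartialHomeomorph E3 E3, x ∈ e.source ∧ e.source ⊆ Iᶜ ∧
        EqOn f e e.source) ∧
      (∀ x ∉ I, ∃ C : NNReal, ∃ U ∈ 𝓝 x, LipschitzOnWith C f U) ∧
      (∀ᵐ x : E3, x ∉ I → DifferentiableAt ℝ f x ∧ (fderiv ℝ f x).det ≠ 0 ∧
        ∀ h h' : E3, ‖h‖ = 1 → ‖h'‖ = 1 → ‖fderiv ℝ f x h‖ ≤ K * ‖fderiv ℝ f x h'‖) ∧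
      (∀ x ∈ I, ∀ U ∈ 𝓝 x, ¬ InjOn f (U \ I)) ∧
      ContinuousOn f {(EuclideanSpace.single 2 (-1) : E3)}ᶜ := by
  refine ⟨F ∘ inv1, (L : ℝ) * L', ?_⟩
  intro I
  have hI : I = segment ℝ (EuclideanSpace.single 2 (-1) : E3) 0 := rfl
  have hccI : cc ∈ I := cc_mem
  have hIclosed : IsClosed I := segment_closed
  have hne : ∀ x, x ∉ I → x ≠ cc := by
    rintro x hx rfl
    exact hx hccI
  refine ⟨?_, ?_, ?_, ?_, hL.continuous.comp_continuousOn continuousOn_inv1⟩
  · -- local homeomorphism
    intro x hx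
    obtain ⟨e, hxe, heq, -⟩ := hloc _ (inv1_not_mem_Ray hx)
    have hopen : IsOpen (Iᶜ) := hIclosed.isOpen_compl
    refine ⟨((invOPH.trans e).restrOpen Iᶜ hopen), ?_, ?_, ?_⟩
    · simp only [OpenPartialHomeomorph.restrOpen_source, OpenPartialHomeomorph.trans_source]
      exact ⟨⟨hne x hx, hxe⟩, hx⟩
    · simp only [OpenPartialHomeomorph.restrOpen_source]
      exact inter_subset_right
    · intro z hz
      simp only [OpenPartialHomeomorph.restrOpen_source, OpenPartialHomeomorph.trans_source] at hz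
      have : inv1 z ∈ e.source := hz.1.2
      show F (inv1 z) = e (inv1 z)
      exact heq this
  · -- locally Lipschitz
    intro x hx
    have hxc := hne x hx
    have hd : 0 < dist x cc := dist_pos.2 hxc
    refine ⟨L * Real.toNNReal (4 / (dist x cc) ^ 2), Metric.ball x (dist x cc / 2),
      Metric.ball_mem_nhds _ (by positivity), ?_⟩
    rw [lipschitzOnWith_iff_dist_le_mul]
    intro y hy z hz
    have hlow : ∀ w ∈ Metric.ball x (dist x cc / 2), dist x cc / 2 ≤ dist w cc := by
      intro w hw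
      rw [Metric.mem_ball] at hw
      have := dist_triangle x w cc
      rw [dist_comm x w] at this
      linarith
    have hy' := hlow y hy
    have hz' := hlow z hz
    have hyc : y ≠ cc := dist_pos.1 (by linarith)
    have hzc : z ≠ cc := dist_pos.1 (by linarith)
    calc dist ((F ∘ inv1) y) ((F ∘ inv1) z) ≤ L * dist (inv1 y) (inv1 z) := hL.dist_le_mul _ _
      _ = L * (1 / (dist y cc * dist z cc) * dist y z) := by rw [dist_inv1 hyc hzc]
      _ ≤ L * (4 / (dist x cc) ^ 2 * dist y z) := by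
          have : 1 / (dist y cc * dist z cc) ≤ 4 / (dist x cc) ^ 2 := by
            rw [div_le_div_iff₀ (by nlinarith) (by positivity)]
            nlinarith
          gcongr
      _ = ↑(L * Real.toNNReal (4 / (dist x cc) ^ 2)) * dist y z := by
          rw [NNReal.coe_mul, Real.coe_toNNReal _ (by positivity)]
          ring
  · -- a.e. differentiability with bounded distortion
    have hN : volume {y : E3 | ¬ DifferentiableAt ℝ F y} = 0 := by
      have := hL.ae_differentiableAt (μ := (volume : Measure E3))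
      rwa [ae_iff] at this
    have hS : volume (inv1 '' ({y : E3 | ¬ DifferentiableAt ℝ F y} \ {cc})) = 0 := by
      apply addHaar_image_eq_zero_of_differentiableOn_of_addHaar_eq_zero
      · intro y hy
        exact (EuclideanGeometry.hasFDerivAt_inversion (R := 1)
          hy.2).differentiableAt.differentiableWithinAt
      · exact measure_mono_null sdiff_subset hN
    rw [ae_iff]
    refine measure_mono_null ?_ hS
    intro x hx
    simp only [mem_ofPred_eq] at hx
    push Not at hx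
    obtain ⟨hxI, hx⟩ := hx
    have hxc := hne x hxI
    refine ⟨inv1 x, ⟨?_, ?_⟩, inv1_inv1 x⟩
    swap
    · simp only [mem_singleton_iff]
      rwa [inv1_eq_cc]
    · intro hdiff
      have hd : 0 < dist x cc := dist_pos.2 hxc
      have hF : HasFDerivAt F (fderiv ℝ F (inv1 x)) (inv1 x) := hdiff.hasFDerivAt
      have hι := EuclideanGeometry.hasFDerivAt_inversion (R := 1) hxc
      have hcomp := hF.comp x hι
      have hfd := hcomp.fderiv
      have hnormι : ∀ h : E3, ‖(((1 : ℝ) / dist x cc) ^ 2 •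
          ((ℝ ∙ (x - cc))ᗮ.reflection : E3 →L[ℝ] E3)) h‖ = (1 / dist x cc) ^ 2 * ‖h‖ := by
        intro h
        rw [_root_.smul_apply, norm_smul, Real.norm_of_nonneg (by positivity)]
        congr 1
        exact LinearIsometryEquiv.norm_map _ _
      obtain ⟨e, hxe, heq, hexp⟩ := hloc _ (inv1_not_mem_Ray hxI)
      have hlowF : ∀ v, ‖v‖ ≤ L' * ‖fderiv ℝ F (inv1 x) v‖ :=
        lower_fderiv hF (e.open_source.mem_nhds hxe) (fun z hz => hexp z hz _ hxe)
      have hupF : ∀ v, ‖fderiv ℝ F (inv1 x) v‖ ≤ L * ‖v‖ := by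
        intro v
        refine (ContinuousLinearMap.le_opNorm _ _).trans ?_
        gcongr
        exact norm_fderiv_le_of_lipschitz ℝ hL
      have hup : ∀ h : E3, ‖fderiv ℝ (F ∘ inv1) x h‖ ≤ L * ((1 / dist x cc) ^ 2 * ‖h‖) := by
        intro h
        rw [hfd, ContinuousLinearMap.comp_apply]
        refine (hupF _).trans ?_
        rw [hnormι]
      have hlow : ∀ h : E3, (1 / dist x cc) ^ 2 * ‖h‖ ≤ L' * ‖fderiv ℝ (F ∘ inv1) x h‖ := by
        intro h
        rw [hfd, ContinuousLinearMap.comp_apply, ← hnormι h]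
        exact hlowF _
      have hdet : (fderiv ℝ (F ∘ inv1) x).det ≠ 0 := by
        have hinj : Function.Injective (fderiv ℝ (F ∘ inv1) x) := by
          rw [injective_iff_map_eq_zero]
          intro h hh
          have := hlow h
          rw [hh, norm_zero, mul_zero] at this
          have h2 : 0 < (1 / dist x cc) ^ 2 := by positivity
          have h3 : ‖h‖ ≤ 0 := by
            by_contra hcon
            push Not at hcon
            have := mul_pos h2 hcon
            linarith
          exact norm_le_zero_iff.1 h3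
        have := LinearEquiv.isUnit_det' (LinearEquiv.ofInjectiveEndo
          ((fderiv ℝ (F ∘ inv1) x : E3 →ₗ[ℝ] E3)) hinj)
        have h5 : ((LinearEquiv.ofInjectiveEndo
            ((fderiv ℝ (F ∘ inv1) x : E3 →ₗ[ℝ] E3)) hinj : E3 ≃ₗ[ℝ] E3) : E3 →ₗ[ℝ] E3) =
            (fderiv ℝ (F ∘ inv1) x : E3 →ₗ[ℝ] E3) := LinearMap.ext fun _ => rfl
        rw [h5] at this
        exact this.ne_zero
      obtain ⟨h, h', hh, hh', hlt⟩ := hx hcomp.differentiableAt hdet
      have h1 := hup h
      have h2 := hlow h'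
      rw [hh, mul_one] at h1
      rw [hh', mul_one] at h2
      have : (L : ℝ) * (1 / dist x cc) ^ 2 ≤ L * (L' * ‖fderiv ℝ (F ∘ inv1) x h'‖) := by
        gcongr
      have h4 : (L : ℝ) * L' * ‖fderiv ℝ (F ∘ inv1) x h'‖ =
        L * (L' * ‖fderiv ℝ (F ∘ inv1) x h'‖) := by ring
      linarith
  · -- non-injectivity
    have key : ∀ x ∈ I, x ≠ cc → ∀ U ∈ 𝓝 x, ¬ InjOn (F ∘ inv1) (U \ I) := by
      intro x hxI hxc U hU hinj
      have hray : inv1 x ∈ Ray := (inv1_mem_Ray hxc).2 hxI
      have hixc : inv1 x ≠ cc := by rwa [Ne, inv1_eq_cc]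
      have hW : inv1 ⁻¹' U ∩ {cc}ᶜ ∈ 𝓝 (inv1 x) := by
        refine inter_mem ?_ (isOpen_compl_singleton.mem_nhds hixc)
        apply (continuousAt_inv1 hixc)
        rwa [inv1_inv1]
      refine hninj _ hray _ hW ?_
      rintro y ⟨⟨hyU, hyc⟩, hyR⟩ z ⟨⟨hzU, hzc⟩, hzR⟩ hyz
      have hmem : ∀ w, w ∈ inv1 ⁻¹' U → w ≠ cc → w ∉ Ray → inv1 w ∈ U \ I := by
        intro w hw hwc hwR
        refine ⟨hw, fun hwI => hwR ?_⟩
        have hiwc : inv1 w ≠ cc := by rwa [Ne, inv1_eq_cc]
        have := (inv1_mem_Ray hiwc).2 hwI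
        rwa [inv1_inv1] at this
      have h1 := hmem y hyU hyc hyR
      have h2 := hmem z hzU hzc hzR
      have := hinj h1 h2 (by simp only [Function.comp, inv1_inv1]; exact hyz)
      have h3 := congrArg inv1 this
      rwa [inv1_inv1, inv1_inv1] at h3
    intro x hxI U hU
    by_cases hxc : x = cc
    · subst hxc
      -- choose a nearby point of the segment
      have hcont : Tendsto (fun t : ℝ => (1 - t) • cc) (𝓝[>] 0) (𝓝 cc) := by
        have : Tendsto (fun t : ℝ => (1 - t) • cc) (𝓝 0) (𝓝 ((1 - (0:ℝ)) • cc)) := by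
          apply Continuous.tendsto
          fun_prop
        rw [sub_zero, one_smul] at this
        exact this.mono_left nhdsWithin_le_nhds
      obtain ⟨V, hVU, hVo, hV⟩ := mem_nhds_iff.1 hU
      have h1 : ∀ᶠ t : ℝ in 𝓝[>] 0, (1 - t) • cc ∈ V := hcont (hVo.mem_nhds hV)
      have h2 : ∀ᶠ t : ℝ in 𝓝[>] 0, t < 1 :=
        mem_nhdsWithin_of_mem_nhds (Iio_mem_nhds one_pos)
      obtain ⟨t, ⟨ht1, ht2⟩, ht0⟩ := ((h1.and h2).and self_mem_nhdsWithin).exists
      have ht0' : (0:ℝ) < t := ht0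
      have hmem : (1 - t) • cc ∈ I := by
        rw [hI, mem_segment_iff]
        refine ⟨by simp, by simp, ?_, ?_⟩
        · simp; linarith
        · simp; linarith
      have hneq : (1 - t) • cc ≠ cc := by
        intro h
        have := congrArg (fun w : E3 => w 2) h
        simp at this
        linarith
      exact key _ hmem hneq U (mem_of_superset (hVo.mem_nhds ht1) hVU)
    · exact key x hxI hxc U hU

theorem final : FinalStatement := by
  intro F L L' hL hloc hninj
  obtain ⟨f, K, h1, h2, h3, h4, -⟩ := final_plus F L L' hL hloc hninj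
  exact ⟨f, K, h1, h2, h3, h4⟩

end Seg.XP2
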