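import Mathlib
import Pool.Agent.Helper24.Seg.Basic
import Pool.Agent.Helper24.Seg.P3aAlg

/- Author: helper53 (namespace renamed by helper24 for assembly). -/

/-!
# P3a (MP_e9c934_an): local homeomorphism at the star of a vertex
-/

open Set Filter Topology Module MeasureTheory

namespace Seg.XP3a


variable {ι : Type}

lemma _root_.Seg.Cplx.pi_inj (C : Cplx ι) (i : ι) (j : Fin 4) :
    ∀ k k', k ≠ j → k' ≠ j → C.π i j k = C.π i j k' → k = k' := by
  intro k k' hk hk' h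
  rw [← C.hπ2 i j k hk, ← C.hπ2 i j k' hk', h]

lemma _root_.Seg.Cplx.pi_surj (C : Cplx ι) (i : ι) (j : Fin 4) :
    ∀ m, m ≠ (C.σ i j).2 → ∃ k, k ≠ j ∧ C.π i j k = m := by
  intro m hm
  refine ⟨C.π (C.σ i j).1 (C.σ i j).2 m, ?_, ?_⟩
  · have := C.hπ1 (C.σ i j).1 (C.σ i j).2 m hm
    rwa [C.hσ2 i j] at this
  · have := C.hπ2 (C.σ i j).1 (C.σ i j).2 m hm
    rwa [C.hσ2 i j] at this

lemma continuous_N (a : Fin 4 → E3) (j : Fin 4) : Continuous (N a j) :=
  (NA a j).continuous_of_finiteDimensional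

lemma isClosed_cone (a : Fin 4 → E3) (j₀ : Fin 4) : IsClosed (cone a j₀) := by
  have : cone a j₀ = ⋂ j, ⋂ (_ : j ≠ j₀), {x | 0 ≤ N a j x} := by
    ext x; simp [cone]
  rw [this]
  exact isClosed_iInter fun j => isClosed_iInter fun _ =>
    isClosed_le continuous_const (continuous_N a j)

/-- a line through `p` -/
noncomputable def lineAt (p v : E3) : AffineSubspace ℝ E3 :=
  AffineSubspace.mk' p (Submodule.span ℝ {v - p})

lemma lineAt_finrank (p v : E3) : finrank ℝ (lineAt p v).direction ≤ 1 := by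
  rw [lineAt, AffineSubspace.direction_mk']
  calc finrank ℝ (Submodule.span ℝ {v - p}) ≤ ({v - p} : Set E3).toFinset.card :=
        finrank_span_le_card _
    _ = 1 := by simp

lemma lineAt_ne_top (p v : E3) : lineAt p v ≠ ⊤ := by
  intro h
  have h1 := lineAt_finrank p v
  rw [h, AffineSubspace.direction_top, finrank_top] at h1
  simp at h1

lemma mem_lineAt (p v x : E3) (t : ℝ) (h : x = p + t • (v - p)) : x ∈ lineAt p v := by
  rw [lineAt, AffineSubspace.mem_mk']
  rw [h]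
  simp only [vsub_eq_sub, add_sub_cancel_left]
  exact Submodule.smul_mem _ _ (Submodule.mem_span_singleton_self _)

lemma exists_generic {κ : Type} [Countable κ] (P : κ → E3 × E3) (W : Set E3) (hW : IsOpen W)
    (hne : W.Nonempty) : ∃ x ∈ W, ∀ k, x ∉ lineAt (P k).1 (P k).2 := by
  by_contra hcon
  push Not at hcon
  have hsub : W ⊆ ⋃ k, (lineAt (P k).1 (P k).2 : Set E3) := by
    intro x hx
    obtain ⟨k, hk⟩ := hcon x hx
    exact mem_iUnion.2 ⟨k, hk⟩
  have h0 : volume (⋃ k, (lineAt (P k).1 (P k).2 : Set E3)) = 0 := by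
    refine measure_iUnion_null fun k => ?_
    exact Measure.addHaar_affineSubspace volume _ (lineAt_ne_top _ _)
  have h1 : volume W = 0 := measure_mono_null hsub h0
  exact (hW.measure_pos volume hne).ne' h1

/-- the induced gluing on the star -/
noncomputable def sg (C : Cplx ι) (St : Finset (ι × Fin 4))
    (h : ∀ i j₀, (i, j₀) ∈ St → ∀ j, j ≠ j₀ → ((C.σ i j).1, C.π i j j₀) ∈ St)
    (s : {s // s ∈ St}) (j : Fin 4) : {s // s ∈ St} × Fin 4 :=
  if hj : j ≠ s.1.2 then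
    (⟨((C.σ s.1.1 j).1, C.π s.1.1 j s.1.2), h _ _ s.2 j hj⟩, (C.σ s.1.1 j).2)
  else (s, j)

lemma exists_third (j₀ j j' : Fin 4) : ∃ m : Fin 4, ∀ k, k ≠ j₀ → k ≠ j → k ≠ j' → j ≠ j' →
    j ≠ j₀ → j' ≠ j₀ → k = m := by
  revert j₀ j j'; decide

/-- centre of a simplex -/
lemma N_centre (a : Fin 4 → E3) (j : Fin 4) :
    N a j (∑ k, (1 / 4 : ℝ) • a k) = V4 a / 4 := by
  rw [N_comb a j (fun _ => 1 / 4) a (by simp)]
  rw [Finset.sum_eq_single j]
  · rw [N_self]; ring
  · intro k _ hk; rw [N_other a (Ne.symm hk), mul_zero]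
  · simp

theorem star_glue (hG : GlueStatement) (C : Cplx ι) (St : Finset (ι × Fin 4)) (p q : E3)
    (hSt : IsStar C St p q) {F : Type} [PseudoMetricSpace F] (A : ι → Fin 4 → E3 → F) (L : NNReal)
    (hA : ∀ i j₀, (i, j₀) ∈ St → LipschitzWith L (A i j₀))
    (hAσ : ∀ i j₀, (i, j₀) ∈ St → ∀ j, j ≠ j₀ → ∀ x, N (C.a i) j x = 0 →
      A i j₀ x = A (C.σ i j).1 (C.π i j j₀) x) :
    (∀ x, ∃ i j₀, (i, j₀) ∈ St ∧ x ∈ cone (C.a i) j₀) ∧
    (∀ i j₀ i' j₀' x y, (i, j₀) ∈ St → (i', j₀') ∈ St → x ∈ cone (C.a i) j₀ →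
      y ∈ cone (C.a i') j₀' → dist (A i j₀ x) (A i' j₀' y) ≤ L * dist x y) := by
  classical
  -- generic test point
  obtain ⟨x₁, i₁, j₁, h₁, hpos, huniq⟩ := hSt.testa
  let P : {s // s ∈ St} × Fin 4 → E3 × E3 := fun k => (p, C.a k.1.1.1 k.2)
  let W : Set E3 := {x | (∀ j, j ≠ j₁ → 0 < N (C.a i₁) j x) ∧
    ∀ s : {s // s ∈ St}, s.1 ≠ (i₁, j₁) → x ∉ cone (C.a s.1.1) s.1.2}
  have hWo : IsOpen W := by
    have hW : W = (⋂ j, ⋂ (_ : j ≠ j₁), {x | 0 < N (C.a i₁) j x}) ∩
        (⋂ s : {s // s ∈ St}, ⋂ (_ : s.1 ≠ (i₁, j₁)), (cone (C.a s.1.1) s.1.2)ᶜ) := by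
      ext x
      simp only [W, mem_ofPred_eq, mem_inter_iff, mem_iInter, mem_compl_iff]
    rw [hW]
    refine IsOpen.inter ?_ ?_
    · exact isOpen_iInter_of_finite fun j => isOpen_iInter_of_finite fun _ =>
        isOpen_lt continuous_const (continuous_N _ _)
    · exact isOpen_iInter_of_finite fun s => isOpen_iInter_of_finite fun _ =>
        (isClosed_cone _ _).isOpen_compl
  have hWne : W.Nonempty := by
    refine ⟨x₁, hpos, fun s hs hx => hs ?_⟩
    exact huniq s.1.1 s.1.2 s.2 hx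
  obtain ⟨x₀, hx₀W, hx₀g⟩ := exists_generic P W hWo hWne
  have key := hG (V := E3) (F := F) (ι := {s // s ∈ St}) (J := Fin 4)
    (κ := {s // s ∈ St} × Fin 4)
    (fun k => lineAt (P k).1 (P k).2)
    (fun k => by
      have := lineAt_finrank (P k).1 (P k).2
      simp only [finrank_euclideanSpace, Fintype.card_fin]
      omega)
    (fun s j => j ≠ s.1.2)
    (fun s j => NA (C.a s.1.1) j)
    (fun s => ⟨∑ k, (1 / 4 : ℝ) • C.a s.1.1 k, fun j _ => by
      rw [NA_apply, N_centre]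
      have := C.ha s.1.1
      positivity⟩)
    (by
      -- hedge
      intro s j j' hj hj' hjj' x hx hx'
      rw [NA_apply] at hx hx'
      obtain ⟨m, hm⟩ := exists_third s.1.2 j j'
      refine ⟨(s, m), ?_⟩
      have hV := (C.ha s.1.1).ne'
      have hxe : x = ∑ k, (N (C.a s.1.1) k x / V4 (C.a s.1.1)) • C.a s.1.1 k := by
        rw [← amap_eq, amap_self _ hV]
      have hmne : m ≠ s.1.2 ∧ m ≠ j ∧ m ≠ j' := by
        have : ∀ (j₀ j j' : Fin 4), j ≠ j' → j ≠ j₀ → j' ≠ j₀ →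
            ∃ m, m ≠ j₀ ∧ m ≠ j ∧ m ≠ j' := by decide
        obtain ⟨m', h1, h2, h3⟩ := this s.1.2 j j' hjj' hj hj'
        have := hm m' h1 h2 h3 hjj' hj hj'
        subst this
        exact ⟨h1, h2, h3⟩
      have hsum : ∀ f : Fin 4 → E3, (∀ k, k ≠ s.1.2 → k ≠ m → f k = 0) →
          ∑ k, f k = f s.1.2 + f m := by
        intro f hf
        rw [← Finset.sum_subset (Finset.subset_univ {s.1.2, m})]
        · rw [Finset.sum_pair hmne.1.symm]
        · intro k _ hk
          simp only [Finset.mem_insert, Finset.mem_singleton, not_or] at hk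
          exact hf k hk.1 hk.2
      have hzero : ∀ k, k ≠ s.1.2 → k ≠ m → N (C.a s.1.1) k x = 0 := by
        intro k hk hk'
        by_cases h1 : k = j
        · rw [h1]; exact hx
        by_cases h2 : k = j'
        · rw [h2]; exact hx'
        exact absurd (hm k hk h1 h2 hjj' hj hj') hk'
      have hxe2 : x = (N (C.a s.1.1) s.1.2 x / V4 (C.a s.1.1)) • C.a s.1.1 s.1.2 +
          (N (C.a s.1.1) m x / V4 (C.a s.1.1)) • C.a s.1.1 m := by
        conv_lhs => rw [hxe]
        exact hsum _ (fun k hk hk' => by simp [hzero k hk hk'])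
      have hsc : N (C.a s.1.1) s.1.2 x / V4 (C.a s.1.1) + N (C.a s.1.1) m x / V4 (C.a s.1.1)
          = 1 := by
        rw [← sum_c (C.a s.1.1) hV x]
        rw [← Finset.sum_subset (Finset.subset_univ {s.1.2, m})]
        · rw [Finset.sum_pair hmne.1.symm]
        · intro k _ hk
          simp only [Finset.mem_insert, Finset.mem_singleton, not_or] at hk
          rw [hzero k hk.1 hk.2, zero_div]
      refine mem_lineAt _ _ _ (N (C.a s.1.1) m x / V4 (C.a s.1.1)) ?_
      have hp : C.a s.1.1 s.1.2 = p := hSt.apexa _ _ s.2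
      have hc : N (C.a s.1.1) s.1.2 x / V4 (C.a s.1.1) =
          1 - N (C.a s.1.1) m x / V4 (C.a s.1.1) := by linarith
      conv_lhs => rw [hxe2, hc, hp]
      simp only [P]
      rw [sub_smul, one_smul, smul_sub]
      abel)
    (fun x _ => ⟨univ, univ_mem, Set.toFinite _⟩)
    (sg C St hSt.closed)
    (by
      intro s j hj
      simp only [sg, dif_pos hj]
      exact (C.hπ1 _ _ _ (Ne.symm hj)).symm)
    (by
      intro s j hj h
      simp only [sg, dif_pos hj] at h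
      have := congrArg (fun t => t.1.1) h
      exact C.hσ1 _ _ this)
    (by
      intro s j hj
      have hj' : (C.σ s.1.1 j).2 ≠ C.π s.1.1 j s.1.2 := (C.hπ1 _ _ _ (Ne.symm hj)).symm
      have e1 : sg C St hSt.closed s j =
          (⟨((C.σ s.1.1 j).1, C.π s.1.1 j s.1.2), hSt.closed _ _ s.2 j hj⟩,
            (C.σ s.1.1 j).2) := by
        simp only [sg, dif_pos hj]
      rw [e1]
      simp only [sg]
      rw [dif_pos hj']
      have e2 := C.hσ2 s.1.1 j
      have e3 := C.hπ2 s.1.1 j s.1.2 (Ne.symm hj)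
      have e4 : (C.σ (C.σ s.1.1 j).1 (C.σ s.1.1 j).2).1 = s.1.1 := by rw [e2]
      have e5 : (C.σ (C.σ s.1.1 j).1 (C.σ s.1.1 j).2).2 = j := by rw [e2]
      apply Prod.ext
      · apply Subtype.ext
        apply Prod.ext
        · exact e4
        · exact e3
      · exact e5)
    (by
      intro s j hj
      refine ⟨1, one_pos, fun x => ?_⟩
      simp only [sg, dif_pos hj, NA_apply]
      rw [C.hσa]; ring)
    (by
      intro s j x hj hx hpos j' hj'
      simp only [sg, dif_pos hj, NA_apply] at hj' hx hpos ⊢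
      by_cases h : j' = (C.σ s.1.1 j).2
      · rw [h, C.hσa, hx]; simp
      · obtain ⟨k, hk, hkj⟩ := C.pi_surj s.1.1 j j' h
        have h1 := facet_coord (C.a s.1.1) (C.a (C.σ s.1.1 j).1) (C.ha _).ne' j (C.π s.1.1 j)
          (C.hπa s.1.1 j) (C.pi_inj s.1.1 j) x hx k hk (C.ha _).ne'
        rw [hkj] at h1
        have hk0 : k ≠ s.1.2 := by
          rintro rfl
          exact hj' hkj.symm
        have h2 := hpos k hk0
        have h3 : 0 ≤ N (C.a (C.σ s.1.1 j).1) j' x / V4 (C.a (C.σ s.1.1 j).1) := by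
          rw [h1]; exact div_nonneg h2 (C.ha _).le
        have h4 := C.ha (C.σ s.1.1 j).1
        have := mul_nonneg h3 h4.le
        rwa [div_mul_cancel₀ _ h4.ne'] at this)
    x₀ hx₀g
    (by
      refine ⟨⟨(i₁, j₁), h₁⟩, ?_, ?_⟩
      · intro j hj
        exact (hx₀W.1 j hj).le
      · intro s hs
        by_contra hne
        refine hx₀W.2 s (fun h => hne (Subtype.ext h)) ?_
        intro j hj
        exact hs j hj)
    (fun s => A s.1.1 s.1.2) L
    (fun s => hA _ _ s.2)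
    (by
      intro s j x hj hx _
      simp only [sg, dif_pos hj]
      exact hAσ _ _ s.2 j hj x hx)
  obtain ⟨ka, kb, _⟩ := key
  refine ⟨?_, ?_⟩
  · -- covering
    intro x
    by_contra hcon
    push Not at hcon
    let W' : Set E3 := ⋂ s : {s // s ∈ St}, (cone (C.a s.1.1) s.1.2)ᶜ
    have hW'o : IsOpen W' := isOpen_iInter_of_finite fun s => (isClosed_cone _ _).isOpen_compl
    have hW'ne : W'.Nonempty := ⟨x, mem_iInter.2 fun s => hcon _ _ s.2⟩
    obtain ⟨y, hyW, hyg⟩ := exists_generic P W' hW'o hW'ne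
    obtain ⟨s, hs⟩ := ka y hyg
    exact (mem_iInter.1 hyW s) (fun j hj => hs j hj)
  · intro i j₀ i' j₀' x y h h' hx hy
    exact kb ⟨(i, j₀), h⟩ ⟨(i', j₀'), h'⟩ x y (fun j hj => hx j hj) (fun j hj => hy j hj)

/-- the open star -/
def ostar (C : Cplx ι) (St : Finset (ι × Fin 4)) : Set E3 :=
  {x | ∃ i j₀, (i, j₀) ∈ St ∧ x ∈ cell (C.a i) ∧ 0 < N (C.a i) j₀ x}

lemma _root_.Seg.IsStar.swap {C : Cplx ι} {St : Finset (ι × Fin 4)} {p q : E3} (h : IsStar C St p q) :
    IsStar C.swap St q p where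
  closed := h.closed
  apexa := h.apexb
  apexb := h.apexa
  testa := h.testb
  testb := h.testa

lemma lipschitz_coord (a : Fin 4 → E3) (j : Fin 4) :
    ∃ K : NNReal, LipschitzWith K (fun x => N a j x / V4 a) := by
  let f : E3 →L[ℝ] ℝ := LinearMap.toContinuousLinearMap (NA a j).linear
  refine ⟨‖f‖₊ * ‖(V4 a)⁻¹‖₊, ?_⟩
  refine LipschitzWith.of_dist_le_mul fun x y => ?_
  have h1 : N a j x - N a j y = f (x - y) := by
    have := (NA a j).linearMap_vsub x y
    rw [vsub_eq_sub, vsub_eq_sub, NA_apply, NA_apply] at this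
    rw [← this]; rfl
  rw [Real.dist_eq, ← sub_div, h1, div_eq_mul_inv, abs_mul]
  rw [dist_eq_norm]
  have h2 := f.le_opNorm (x - y)
  rw [← Real.norm_eq_abs, ← Real.norm_eq_abs]
  push_cast
  calc ‖f (x - y)‖ * ‖(V4 a)⁻¹‖ ≤ (‖f‖ * ‖x - y‖) * ‖(V4 a)⁻¹‖ :=
        mul_le_mul_of_nonneg_right h2 (norm_nonneg _)
    _ = ‖f‖ * ‖(V4 a)⁻¹‖ * ‖x - y‖ := by ring

theorem isOpen_ostar (hG : GlueStatement) (C : Cplx ι) (St : Finset (ι × Fin 4)) (p q : E3)
    (hSt : IsStar C St p q) : IsOpen (ostar C St) := by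
  classical
  choose K hK using lipschitz_coord
  let L : NNReal := ∑ s ∈ St, K (C.a s.1) s.2
  have hL : ∀ i j₀, (i, j₀) ∈ St → LipschitzWith L (fun x => N (C.a i) j₀ x / V4 (C.a i)) := by
    intro i j₀ h
    refine (hK (C.a i) j₀).weaken ?_
    exact Finset.single_le_sum (f := fun s : ι × Fin 4 => K (C.a s.1) s.2)
      (fun _ _ => zero_le) h
  obtain ⟨hcov, hlip⟩ := star_glue hG C St p q hSt
    (fun i j₀ x => N (C.a i) j₀ x / V4 (C.a i)) L hL
    (by
      intro i j₀ h j hj x hx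
      exact (facet_coord (C.a i) (C.a (C.σ i j).1) (C.ha _).ne' j (C.π i j)
        (C.hπa i j) (C.pi_inj i j) x hx j₀ (Ne.symm hj) (C.ha _).ne').symm)
  rw [Metric.isOpen_iff]
  rintro x ⟨i, j₀, h, hx, hpos⟩
  have hV := C.ha i
  have hc : 0 < N (C.a i) j₀ x / V4 (C.a i) := div_pos hpos hV
  refine ⟨(N (C.a i) j₀ x / V4 (C.a i)) / (L + 1), by positivity, ?_⟩
  intro y hy
  rw [Metric.mem_ball] at hy
  obtain ⟨i', j₀', h', hy'⟩ := hcov y
  have h1 := hlip i j₀ i' j₀' x y h h' (fun j _ => hx j) hy'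
  have h2 : (L : ℝ) * dist x y < N (C.a i) j₀ x / V4 (C.a i) := by
    rw [dist_comm] at hy
    have hL0 : (0 : ℝ) ≤ L := L.2
    rw [lt_div_iff₀ (by positivity)] at hy
    nlinarith [dist_nonneg (x := x) (y := y)]
  have h3 : 0 < N (C.a i') j₀' y / V4 (C.a i') := by
    have := lt_of_le_of_lt h1 h2
    rw [Real.dist_eq] at this
    have := (abs_lt.1 this).2
    linarith
  have h4 : 0 < N (C.a i') j₀' y := by
    have := mul_pos h3 (C.ha i')
    rwa [div_mul_cancel₀ _ (C.ha i').ne'] at this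
  refine ⟨i', j₀', h', ?_, h4⟩
  intro j
  by_cases hj : j = j₀'
  · rw [hj]; exact h4.le
  · exact hy' j hj

theorem star (hG : GlueStatement) : StarStatement := by
  intro ι C St p q hSt F hF hFc L' hL'
  classical
  have hopen := isOpen_ostar hG C St p q hSt
  have hopen' := isOpen_ostar hG C.swap St q p hSt.swap
  obtain ⟨_, hlip⟩ := star_glue hG C.swap St q p hSt.swap
    (fun i _ => amap (C.b i) (C.a i)) L' hL'
    (by
      intro i j₀ h j hj x hx
      have hx1 : N (C.b i) j x = 0 := hx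
      have hx2 : N (C.b (C.σ i j).1) (C.σ i j).2 x = 0 := by rw [C.hσb, hx1, neg_zero]
      exact facet_amap (C.b i) (C.b (C.σ i j).1) (C.a i) (C.a (C.σ i j).1) (C.hb _).ne'
        (C.hb _).ne' j (C.σ i j).2 (C.π i j) (C.hπb i j) (C.hπa i j) (C.pi_inj i j)
        (fun k hk => C.hπ1 i j k hk) (C.pi_surj i j) x hx1 hx2)
  -- inverse
  let G : E3 → E3 := fun y =>
    if h : ∃ s : ι × Fin 4, s ∈ St ∧ y ∈ cone (C.b s.1) s.2 then
      amap (C.b h.choose.1) (C.a h.choose.1) y else 0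
  have hG' : ∀ i j₀ y, (i, j₀) ∈ St → y ∈ cone (C.b i) j₀ → G y = amap (C.b i) (C.a i) y := by
    intro i j₀ y h hy
    have hex : ∃ s : ι × Fin 4, s ∈ St ∧ y ∈ cone (C.b s.1) s.2 := ⟨(i, j₀), h, hy⟩
    simp only [G]
    rw [dif_pos hex]
    have := hlip hex.choose.1 hex.choose.2 i j₀ y y hex.choose_spec.1 h hex.choose_spec.2 hy
    rw [dist_self, mul_zero] at this
    exact dist_le_zero.1 this
  have hGl : ∀ y ∈ ostar C.swap St, ∀ z ∈ ostar C.swap St, dist (G y) (G z) ≤ L' * dist y z := by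
    rintro y ⟨i, j₀, h, hy, _⟩ z ⟨i', j₀', h', hz, _⟩
    rw [hG' i j₀ y h (fun j _ => hy j), hG' i' j₀' z h' (fun j _ => hz j)]
    exact hlip i j₀ i' j₀' y z h h' (fun j _ => hy j) (fun j _ => hz j)
  have hmaps : ∀ i j₀ x, (i, j₀) ∈ St → x ∈ cell (C.a i) → 0 < N (C.a i) j₀ x →
      F x ∈ cell (C.b i) ∧ 0 < N (C.b i) j₀ (F x) ∧ G (F x) = x := by
    intro i j₀ x h hx hpos
    have hVa := C.ha i
    have hVb := C.hb i
    have hc : ∀ j, 0 ≤ N (C.b i) j (F x) := by
      intro j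
      rw [hFc i x hx, N_amap _ _ hVa.ne']
      have := hx j
      positivity
    refine ⟨hc, ?_, ?_⟩
    · rw [hFc i x hx, N_amap _ _ hVa.ne']
      positivity
    · rw [hG' i j₀ (F x) h (fun j _ => hc j), hFc i x hx, amap_amap _ _ hVa.ne' hVb.ne']
  have hmaps' : ∀ i j₀ y, (i, j₀) ∈ St → y ∈ cell (C.b i) → 0 < N (C.b i) j₀ y →
      G y ∈ cell (C.a i) ∧ 0 < N (C.a i) j₀ (G y) ∧ F (G y) = y := by
    intro i j₀ y h hy hpos
    have hVa := C.ha i
    have hVb := C.hb i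
    have hGy : G y = amap (C.b i) (C.a i) y := hG' i j₀ y h (fun j _ => hy j)
    have hc : ∀ j, 0 ≤ N (C.a i) j (G y) := by
      intro j
      rw [hGy, N_amap _ _ hVb.ne']
      have := hy j
      positivity
    refine ⟨hc, ?_, ?_⟩
    · rw [hGy, N_amap _ _ hVb.ne']
      positivity
    · rw [hFc i (G y) hc, hGy, amap_amap _ _ hVb.ne' hVa.ne']
  refine ⟨{ toFun := F
            invFun := G
            source := ostar C St
            target := ostar C.swap St
            map_source' := ?_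
            map_target' := ?_
            left_inv' := ?_
            right_inv' := ?_
            open_source := hopen
            open_target := hopen'
            continuousOn_toFun := hF.continuousOn
            continuousOn_invFun := ?_ }, rfl, fun x _ => rfl, ?_⟩
  · rintro x ⟨i, j₀, h, hx, hpos⟩
    obtain ⟨h1, h2, _⟩ := hmaps i j₀ x h hx hpos
    exact ⟨i, j₀, h, h1, h2⟩
  · rintro y ⟨i, j₀, h, hy, hpos⟩
    obtain ⟨h1, h2, _⟩ := hmaps' i j₀ y h hy hpos
    exact ⟨i, j₀, h, h1, h2⟩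
  · rintro x ⟨i, j₀, h, hx, hpos⟩
    exact (hmaps i j₀ x h hx hpos).2.2
  · rintro y ⟨i, j₀, h, hy, hpos⟩
    exact (hmaps' i j₀ y h hy hpos).2.2
  · have : LipschitzOnWith L' G (ostar C.swap St) :=
      LipschitzOnWith.of_dist_le_mul hGl
    exact this.continuousOn
  · rintro y ⟨i, j₀, h, hy, hpos⟩ z ⟨i', j₀', h', hz, hpos'⟩
    obtain ⟨h1, h2, h3⟩ := hmaps i j₀ y h hy hpos
    obtain ⟨h1', h2', h3'⟩ := hmaps i' j₀' z h' hz hpos'
    have := hGl (F y) ⟨i, j₀, h, h1, h2⟩ (F z) ⟨i', j₀', h', h1', h2'⟩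
    rwa [h3, h3'] at this

end Seg.XP3a
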