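import Mathlib
import Pool.Agent.Helper24.Seg.Cert7
import Pool.Agent.Helper24.Seg.P1
import Pool.Agent.Helper24.Seg.P2
import Pool.Agent.Helper24.Seg.P3a
import Pool.Agent.Helper24.Seg.P3b
import Pool.Agent.Helper24.Seg.P3c

/-!
Assembly of the pieces for MP_e9c934_an and transport to an arbitrary segment.
-/

open Set Filter Topology Module MeasureTheory

namespace Seg

/-- start point of the standard segment -/
noncomputable def p0 : E3 := EuclideanSpace.single 2 (-1)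

theorem main0 : ∃ (f : E3 → E3) (K : ℝ),
      (∀ x ∉ segment ℝ p0 0, ∃ e : OpenPartialHomeomorph E3 E3, x ∈ e.source ∧
        e.source ⊆ (segment ℝ p0 0)ᶜ ∧ EqOn f e e.source) ∧
      (∀ x ∉ segment ℝ p0 0, ∃ C : NNReal, ∃ U ∈ 𝓝 x, LipschitzOnWith C f U) ∧
      (∀ᵐ x : E3, x ∉ segment ℝ p0 0 → DifferentiableAt ℝ f x ∧ (fderiv ℝ f x).det ≠ 0 ∧
        ∀ h h' : E3, ‖h‖ = 1 → ‖h'‖ = 1 → ‖fderiv ℝ f x h‖ ≤ K * ‖fderiv ℝ f x h'‖) ∧
      (∀ x ∈ segment ℝ p0 0, ∀ U ∈ 𝓝 x, ¬ InjOn f (U \ segment ℝ p0 0)) ∧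
      ContinuousOn f {p0}ᶜ := by
  obtain ⟨F, L, L', h1, h2, h3⟩ :=
    assembly (XP3a.star XP1.glue) (XP3b.global XP1.glue) XP3c.ray
  exact XP2.final_plus F L L' h1 h2 h3

/-- a similarity of `ℝ³` mapping `a` to `p0` and `b` to `0` -/
lemma exists_similarity (a b : E3) (hab : a ≠ b) :
    ∃ (R : E3 ≃ₗᵢ[ℝ] E3) (c : ℝ), 0 < c ∧ R (c • (a - b)) = p0 := by
  have hn : 0 < ‖a - b‖ := norm_pos_iff.mpr (sub_ne_zero.mpr hab)
  let v : E3 := ‖a - b‖⁻¹ • (a - b)
  have hv : ‖v‖ = ‖p0‖ := by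
    simp only [v, p0]
    rw [norm_smul, norm_inv, norm_norm, inv_mul_cancel₀ hn.ne']
    simp
  refine ⟨(ℝ ∙ (v - p0))ᗮ.reflection, ‖a - b‖⁻¹, inv_pos.mpr hn, ?_⟩
  exact Submodule.reflection_sub hv

theorem main1 (a b : E3) (hab : a ≠ b) : ∃ (f : E3 → E3) (K : ℝ),
      (∀ x ∉ segment ℝ a b, ∃ e : OpenPartialHomeomorph E3 E3, x ∈ e.source ∧
        e.source ⊆ (segment ℝ a b)ᶜ ∧ EqOn f e e.source) ∧
      (∀ x ∉ segment ℝ a b, ∃ C : NNReal, ∃ U ∈ 𝓝 x, LipschitzOnWith C f U) ∧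
      (∀ᵐ x : E3, x ∉ segment ℝ a b → DifferentiableAt ℝ f x ∧ (fderiv ℝ f x).det ≠ 0 ∧
        ∀ h h' : E3, ‖h‖ = 1 → ‖h'‖ = 1 → ‖fderiv ℝ f x h‖ ≤ K * ‖fderiv ℝ f x h'‖) ∧
      (∀ x ∈ segment ℝ a b, ∀ U ∈ 𝓝 x, ¬ InjOn f (U \ segment ℝ a b)) ∧
      ContinuousOn f {a}ᶜ := by
  obtain ⟨g, K, h1, h2, h3, h4, h5⟩ := main0
  obtain ⟨R, c, hc, hR⟩ := exists_similarity a b hab
  -- the similarity
  let T : E3 ≃ₜ E3 :=
    ((Homeomorph.subRight b).trans (Homeomorph.smulOfNeZero c hc.ne')).trans R.toHomeomorph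
  have hT : ∀ x, T x = R (c • (x - b)) := fun x => rfl
  have hTb : T b = 0 := by rw [hT]; simp
  have hTa : T a = p0 := by rw [hT]; exact hR
  let A : E3 →L[ℝ] E3 := c • (R.toContinuousLinearEquiv : E3 →L[ℝ] E3)
  have hA : ∀ h, A h = c • R h := fun h => rfl
  have hTA : ∀ x y, T y - T x = A (y - x) := by
    intro x y
    rw [hT, hT, hA, ← map_sub, ← smul_sub, sub_sub_sub_cancel_right, map_smul]
  have hder : ∀ x, HasFDerivAt T A x := by
    intro x
    have : (T : E3 → E3) = fun y => A y + T 0 := by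
      funext y
      have := hTA 0 y
      rw [sub_zero] at this
      rw [← this]; abel
    rw [this]
    exact A.hasFDerivAt.add_const _
  have hdist : ∀ x y, dist (T x) (T y) = c * dist x y := by
    intro x y
    rw [dist_eq_norm, hTA, hA, norm_smul, Real.norm_of_nonneg hc.le, R.norm_map, dist_eq_norm]
  have hseg : ∀ x, T x ∈ segment ℝ p0 0 ↔ x ∈ segment ℝ a b := by
    intro x
    rw [← hTa, ← hTb]
    simp only [segment_eq_image_lineMap, mem_image]
    have hline : ∀ t : ℝ, AffineMap.lineMap (T a) (T b) t = T (AffineMap.lineMap a b t) := by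
      intro t
      have e1 := hTA a (AffineMap.lineMap a b t)
      have e2 := hTA a b
      rw [AffineMap.lineMap_apply, AffineMap.lineMap_apply] at *
      simp only [vsub_eq_sub, vadd_eq_add, add_sub_cancel_right] at *
      rw [e2]
      rw [map_smul] at e1
      rw [← e1]; abel
    constructor
    · rintro ⟨t, ht, hx⟩
      rw [hline] at hx
      exact ⟨t, ht, T.injective hx⟩
    · rintro ⟨t, ht, hx⟩
      exact ⟨t, ht, by rw [hline, hx]⟩
  refine ⟨g ∘ T, K, ?_, ?_, ?_, ?_, ?_⟩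
  · intro x hx
    obtain ⟨e, he1, he2, he3⟩ := h1 (T x) (fun h => hx ((hseg x).mp h))
    refine ⟨T.transOpenPartialHomeomorph e, he1, ?_, ?_⟩
    · intro y hy hy'
      exact he2 (show T y ∈ e.source from hy) ((hseg y).mpr hy')
    · intro y hy
      exact he3 (show T y ∈ e.source from hy)
  · intro x hx
    obtain ⟨C, U, hU, hC⟩ := h2 (T x) (fun h => hx ((hseg x).mp h))
    refine ⟨C * ⟨c, hc.le⟩, T ⁻¹' U, T.continuous.continuousAt hU, ?_⟩
    have hTL : LipschitzWith ⟨c, hc.le⟩ T := LipschitzWith.of_dist_le_mul fun x y => (hdist x y).le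
    exact hC.comp hTL.lipschitzOnWith (fun y hy => hy)
  · have hbad : volume {y : E3 | ¬ (y ∉ segment ℝ p0 0 → DifferentiableAt ℝ g y ∧
        (fderiv ℝ g y).det ≠ 0 ∧
        ∀ h h' : E3, ‖h‖ = 1 → ‖h'‖ = 1 → ‖fderiv ℝ g y h‖ ≤ K * ‖fderiv ℝ g y h'‖)} = 0 := by
      rwa [ae_iff] at h3
    have hbad' : volume (T.symm '' {y : E3 | ¬ (y ∉ segment ℝ p0 0 → DifferentiableAt ℝ g y ∧
        (fderiv ℝ g y).det ≠ 0 ∧
        ∀ h h' : E3, ‖h‖ = 1 → ‖h'‖ = 1 → ‖fderiv ℝ g y h‖ ≤ K * ‖fderiv ℝ g y h'‖)}) = 0 := by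
      apply addHaar_image_eq_zero_of_differentiableOn_of_addHaar_eq_zero _ _ hbad
      intro y _
      have hsymm : ∀ y, T.symm y = c⁻¹ • R.symm y + b := by
        intro y
        apply T.injective
        rw [T.apply_symm_apply, hT]
        simp [smul_smul, mul_inv_cancel₀ hc.ne']
      have : (T.symm : E3 → E3) = fun y => c⁻¹ • R.symm y + b := funext hsymm
      rw [this]
      apply DifferentiableAt.differentiableWithinAt
      exact (R.symm.differentiableAt.const_smul c⁻¹).add_const b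
    rw [ae_iff]
    refine measure_mono_null ?_ hbad'
    intro x hx
    refine ⟨T x, ?_, T.symm_apply_apply x⟩
    intro hgood
    apply hx
    intro hxs
    obtain ⟨hd, hdet, hK⟩ := hgood (fun h => hxs ((hseg x).mp h))
    have hcomp : HasFDerivAt (g ∘ T) ((fderiv ℝ g (T x)).comp A) x :=
      hd.hasFDerivAt.comp x (hder x)
    have hfd := hcomp.fderiv
    refine ⟨hcomp.differentiableAt, ?_, ?_⟩
    · rw [hfd]
      have hAdet : A.det ≠ 0 := by
        have hinj : Function.Injective A := by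
          intro y z hyz
          rw [hA, hA] at hyz
          exact R.injective (smul_right_injective E3 hc.ne' hyz)
        have := LinearEquiv.isUnit_det' (LinearEquiv.ofInjectiveEndo (A : E3 →ₗ[ℝ] E3) hinj)
        have h5 : ((LinearEquiv.ofInjectiveEndo (A : E3 →ₗ[ℝ] E3) hinj : E3 ≃ₗ[ℝ] E3) :
            E3 →ₗ[ℝ] E3) = (A : E3 →ₗ[ℝ] E3) := LinearMap.ext fun _ => rfl
        rw [h5] at this
        exact this.ne_zero
      have : ((fderiv ℝ g (T x)).comp A).det = (fderiv ℝ g (T x)).det * A.det := by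
        simp only [ContinuousLinearMap.det, ContinuousLinearMap.toLinearMap_comp]
        exact LinearMap.det_comp _ _
      rw [this]
      exact mul_ne_zero hdet hAdet
    · intro h h' hh hh'
      rw [hfd, ContinuousLinearMap.comp_apply, ContinuousLinearMap.comp_apply, hA, hA,
        map_smul, map_smul, norm_smul, norm_smul, Real.norm_of_nonneg hc.le]
      have := hK (R h) (R h') (by rw [R.norm_map]; exact hh) (by rw [R.norm_map]; exact hh')
      have := mul_le_mul_of_nonneg_left this hc.le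
      linarith
  · intro x hx U hU hinj
    apply h4 (T x) ((hseg x).mpr hx) (T '' U) (T.isOpenMap.image_mem_nhds hU)
    rintro _ ⟨⟨y, hy, rfl⟩, hys⟩ _ ⟨⟨z, hz, rfl⟩, hzs⟩ hyz
    exact congrArg T (hinj ⟨hy, fun h => hys ((hseg y).mpr h)⟩ ⟨hz, fun h => hzs ((hseg z).mpr h)⟩ hyz)
  · apply h5.comp T.continuous.continuousOn
    intro x hx hx'
    apply hx
    apply T.injective
    rw [hTa]; exact hx'

end Seg
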